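import Pool.Agent.MP_9210c2_an.General

namespace Pool.Agent.MP_9210c2_an

open MeasureTheory Set Filter Topology
open scoped ENNReal Pointwise RealInnerProductSpace

variable {n : ℕ}

lemma good_ball (n : ℕ) : Good (Metric.ball (0 : V n) 1) where
  isOpen := Metric.isOpen_ball
  bdd := Metric.isBounded_ball
  conv := convex_ball _ _
  symm := fun x hx => by simpa using hx
  ne := ⟨0, by simp⟩

lemma mem_body_ball {x z : V n} {r : ℝ} (hr : 0 < r) :
    z ∈ body (Metric.ball (0 : V n) 1) x r ↔ ‖z - x‖ < r := by
  rw [(good_ball n).mem_body hr, gauge_unit_ball]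

lemma two_le_of_disjoint {x y : V n}
    (h : Disjoint (body (Metric.ball (0 : V n) 1) x 1) (body (Metric.ball (0 : V n) 1) y 1)) :
    2 ≤ ‖x - y‖ := by
  by_contra hlt
  push Not at hlt
  have h' := Set.disjoint_left.1 h
  refine @h' ((1 / 2 : ℝ) • (x + y)) ?_ ?_
  · rw [mem_body_ball one_pos]
    have : (1 / 2 : ℝ) • (x + y) - x = (1 / 2 : ℝ) • (y - x) := by module
    rw [this, norm_smul, norm_sub_rev]
    norm_num; linarith
  · rw [mem_body_ball one_pos]
    have : (1 / 2 : ℝ) • (x + y) - y = (1 / 2 : ℝ) • (x - y) := by module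
    rw [this, norm_smul]
    norm_num; linarith

lemma card_le_four (T : Finset (V n)) (z : V n) (h1 : ∀ x ∈ T, ‖z - x‖ < 6 / 5)
    (h2 : ∀ x ∈ T, ∀ y ∈ T, x ≠ y → 2 ≤ ‖x - y‖) : T.card ≤ 4 := by
  classical
  have h0 : 0 ≤ ⟪∑ x ∈ T, (z - x), ∑ y ∈ T, (z - y)⟫ := real_inner_self_nonneg
  rw [sum_inner] at h0
  have h3 : ∀ x ∈ T, ⟪z - x, ∑ y ∈ T, (z - y)⟫ ≤ 2 - (T.card : ℝ) / 2 := by
    intro x hx
    rw [inner_sum]
    have : ∀ y ∈ T, ⟪z - x, z - y⟫ ≤ (if y = x then 2 else 0) + (-1 / 2 : ℝ) := by
      intro y hy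
      have hx1 := h1 x hx
      have hy1 := h1 y hy
      have := norm_nonneg (z - x)
      have := norm_nonneg (z - y)
      split_ifs with hxy
      · subst hxy
        rw [real_inner_self_eq_norm_sq]
        nlinarith
      · have h4 := h2 y hy x hx hxy
        have h5 := norm_sub_sq_real (z - x) (z - y)
        have : z - x - (z - y) = y - x := by abel
        rw [this] at h5
        nlinarith
    refine (Finset.sum_le_sum this).trans (le_of_eq ?_)
    rw [Finset.sum_add_distrib, Finset.sum_ite_eq' T x, if_pos hx, Finset.sum_const, nsmul_eq_mul]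
    ring
  have h4 := h0.trans (Finset.sum_le_sum h3)
  rw [Finset.sum_const, nsmul_eq_mul] at h4
  by_contra hlt
  push Not at hlt
  have : (5 : ℝ) ≤ T.card := by exact_mod_cast hlt
  nlinarith

lemma packDensity_ball_le (n : ℕ) :
    packDensity (Metric.ball (0 : V n) 1) ≤ 4 * ENNReal.ofReal ((5 / 6) ^ n) := by
  classical
  refine packDensity_le _ (ENNReal.mul_ne_top (by simp) ENNReal.ofReal_ne_top) (6 / 5)
    (by norm_num) fun R hR P hP hd => ?_
  set K := Metric.ball (0 : V n) 1 with hK
  have hm : ∀ x, MeasurableSet (body K x (6 / 5)) := fun x =>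
    ((good_ball n).isOpen_body x (by norm_num)).measurableSet
  have h1 : ∑ x ∈ P, volume (body K x (6 / 5)) ≤
      4 * volume (Metric.closedBall (0 : V n) (R + 6 / 5)) := by
    calc ∑ x ∈ P, volume (body K x (6 / 5))
        = ∫⁻ z, ∑ x ∈ P, (body K x (6 / 5)).indicator 1 z := by
          rw [lintegral_finsetSum _ fun x _ => measurable_one.indicator (hm x)]
          exact Finset.sum_congr rfl fun x _ => (lintegral_indicator_one (hm x)).symm
      _ ≤ ∫⁻ z, (Metric.closedBall (0 : V n) (R + 6 / 5)).indicator (fun _ => 4) z := by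
          refine lintegral_mono fun z => ?_
          have e : ∑ x ∈ P, (body K x (6 / 5)).indicator (1 : V n → ℝ≥0∞) z =
              ((P.filter fun x => z ∈ body K x (6 / 5)).card : ℝ≥0∞) := by
            simp only [Set.indicator, Pi.one_apply]
            rw [Finset.card_filter]
            push_cast
            rfl
          simp only
          rw [e]
          by_cases hz : z ∈ Metric.closedBall (0 : V n) (R + 6 / 5)
          · rw [Set.indicator_of_mem hz]
            have := card_le_four (P.filter fun x => z ∈ body K x (6 / 5)) z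
              (fun x hx => (mem_body_ball (by norm_num)).1 (Finset.mem_filter.1 hx).2)
              (fun x hx y hy hxy => two_le_of_disjoint
                (hd (Finset.mem_filter.1 hx).1 (Finset.mem_filter.1 hy).1 hxy))
            exact_mod_cast this
          · rw [Finset.filter_eq_empty_iff.2]
            · simp
            · intro x hx hzx
              apply hz
              have h3 : ‖x‖ ≤ R := by simpa using hP hx
              have h4 := (mem_body_ball (by norm_num)).1 hzx
              have h5 : ‖z‖ ≤ ‖z - x‖ + ‖x‖ := by simpa using norm_add_le (z - x) x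
              rw [mem_closedBall_zero_iff]
              linarith
      _ = _ := by rw [lintegral_indicator_const measurableSet_closedBall]
  rw [Finset.sum_congr rfl fun x _ => volume_body K x (by norm_num : (0 : ℝ) ≤ 6 / 5),
    Finset.sum_const, nsmul_eq_mul] at h1
  calc (P.card : ℝ≥0∞) * volume K
      = ENNReal.ofReal ((5 / 6) ^ n) * (P.card * (ENNReal.ofReal ((6 / 5) ^ n) * volume K)) := by
        rw [mul_left_comm, ← mul_assoc (ENNReal.ofReal _), ← ENNReal.ofReal_mul (by positivity),
          ← mul_pow]
        norm_num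
    _ ≤ ENNReal.ofReal ((5 / 6) ^ n) * (4 * volume (Metric.closedBall (0 : V n) (R + 6 / 5))) := by
        gcongr
    _ = _ := by ring

lemma ball_lower (hn : 0 < n) :
    packDensity (Metric.ball (0 : V n) 1) ≤ 176 * n * covConst (Metric.ball (0 : V n) 1) := by
  have key := (good_ball n).packDensity_le_mul hn 3 4 (by
    calc _ ≤ ENNReal.ofReal ((1 + ((2 : ℝ) ^ 3)⁻¹) ^ n) * (4 * ENNReal.ofReal ((5 / 6) ^ n)) := by
          gcongr
          exact packDensity_ball_le n
      _ = 4 * ENNReal.ofReal (((1 + ((2 : ℝ) ^ 3)⁻¹) * (5 / 6)) ^ n) := by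
          rw [mul_left_comm, ← ENNReal.ofReal_mul (by positivity), ← mul_pow]
      _ ≤ 4 * 1 := by
          gcongr
          rw [ENNReal.ofReal_le_one]
          exact pow_le_one₀ (by norm_num) (by norm_num)
      _ = 4 := by simp)
  refine key.trans (mul_le_mul_left ?_ _)
  have : 2 * (n * 3 + 1) * (18 + 4) ≤ 176 * n := by omega
  exact_mod_cast this

end Pool.Agent.MP_9210c2_an
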