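import Pool.Agent.MP_9210c2_an.Defs

namespace Pool.Agent.MP_9210c2_an

open MeasureTheory Set
open scoped ENNReal Pointwise

abbrev V (n : ℕ) := EuclideanSpace ℝ (Fin n)

structure Good {n : ℕ} (K : Set (V n)) : Prop where
  isOpen : IsOpen K
  bdd : Bornology.IsBounded K
  conv : Convex ℝ K
  symm : ∀ x ∈ K, -x ∈ K
  ne : K.Nonempty

variable {n : ℕ} {K : Set (V n)}

lemma Good.zero_mem (h : Good K) : (0 : V n) ∈ K := by
  obtain ⟨x, hx⟩ := h.ne
  have := h.conv hx (h.symm x hx) (a := 1 / 2) (b := 1 / 2) (by norm_num) (by norm_num)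
    (by norm_num)
  simpa using this

lemma Good.absorbent (h : Good K) : Absorbent ℝ K :=
  absorbent_nhds_zero (h.isOpen.mem_nhds h.zero_mem)

lemma Good.mem_iff (h : Good K) (x : V n) : x ∈ K ↔ gauge K x < 1 := by
  constructor
  · exact gauge_lt_one_of_mem_of_isOpen h.isOpen
  · intro hx
    exact setOfPred_gauge_lt_one_subset_self h.conv h.zero_mem h.absorbent hx

lemma Good.mem_body (h : Good K) {x z : V n} {δ : ℝ} (hδ : 0 < δ) :
    z ∈ body K x δ ↔ gauge K (z - x) < δ := by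
  constructor
  · rintro ⟨y, hy, rfl⟩
    have : x + δ • y - x = δ • y := by abel
    simp only [this]
    rw [gauge_smul_of_nonneg hδ.le, smul_eq_mul]
    have := (h.mem_iff y).1 hy
    nlinarith
  · intro hz
    refine ⟨δ⁻¹ • (z - x), ?_, ?_⟩
    · rw [h.mem_iff, gauge_smul_of_nonneg (inv_nonneg.2 hδ.le), smul_eq_mul,
        inv_mul_lt_iff₀ hδ]
      simpa using hz
    · simp [smul_smul, mul_inv_cancel₀ hδ.ne']

lemma volume_body (K : Set (V n)) (x : V n) {δ : ℝ} (hδ : 0 ≤ δ) :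
    volume (body K x δ) = ENNReal.ofReal (δ ^ n) * volume K := by
  have : body K x δ = (fun y => x + y) '' (δ • K) := by
    rw [body, ← Set.image_smul, Set.image_image]
  rw [this, Set.image_add_left, measure_preimage_add,
    Measure.addHaar_smul_of_nonneg _ hδ]
  simp

lemma Good.gauge_sub_le (h : Good K) (x y z : V n) :
    gauge K (x - z) ≤ gauge K (x - y) + gauge K (y - z) := by
  have := gauge_add_le h.conv h.absorbent (x - y) (y - z)
  simpa using this

lemma Good.gauge_sub_comm (h : Good K) (x y : V n) : gauge K (x - y) = gauge K (y - x) := by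
  rw [← gauge_neg h.symm, neg_sub]

lemma Good.isOpen_body (h : Good K) (x : V n) {δ : ℝ} (hδ : 0 < δ) : IsOpen (body K x δ) := by
  have : body K x δ = {z | gauge K (z - x) < δ} := by
    ext z; exact h.mem_body hδ
  rw [this]
  have hc := continuous_gauge h.conv (h.isOpen.mem_nhds h.zero_mem)
  exact isOpen_lt (hc.comp (continuous_id.sub continuous_const)) continuous_const

lemma Good.self_mem_body (h : Good K) (x : V n) {δ : ℝ} (hδ : 0 < δ) : x ∈ body K x δ := by
  rw [h.mem_body hδ]; simpa using hδ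

lemma Good.disjoint_body (h : Good K) {x y : V n} {a b : ℝ} (ha : 0 < a) (hb : 0 < b)
    (hxy : a + b ≤ gauge K (y - x)) : Disjoint (body K x a) (body K y b) := by
  rw [Set.disjoint_left]
  intro z hx hy
  rw [h.mem_body ha] at hx
  rw [h.mem_body hb] at hy
  have := h.gauge_sub_le y z x
  rw [h.gauge_sub_comm y z] at this
  linarith

lemma Good.body_subset (h : Good K) {x c : V n} {ε a b : ℝ} (hε : 0 < ε) (ha : 0 < a)
    (hx : x ∈ body K c ε) (hb : ε + a ≤ b) : body K x a ⊆ body K c b := by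
  intro z hz
  rw [h.mem_body ha] at hz
  rw [h.mem_body hε] at hx
  rw [h.mem_body (by linarith)]
  have := h.gauge_sub_le z x c
  linarith

lemma Good.exists_gauge_le (h : Good K) : ∃ C : ℝ, 0 < C ∧ ∀ x, gauge K x ≤ C * ‖x‖ := by
  obtain ⟨r, hr, hsub⟩ := Metric.isOpen_iff.1 h.isOpen 0 h.zero_mem
  refine ⟨r⁻¹, inv_pos.2 hr, fun x => ?_⟩
  have h1 : gauge K x ≤ gauge (Metric.ball (0 : V n) r) x :=
    gauge_mono (absorbent_ball_zero hr) hsub x
  rw [gauge_ball hr.le] at h1
  rw [mul_comm, ← div_eq_mul_inv]; exact h1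

lemma Good.exists_bound (h : Good K) {E : Set (V n)} (hE : Bornology.IsBounded E) :
    ∃ D : ℝ, 0 < D ∧ ∀ x ∈ E, ∀ y ∈ E, gauge K (y - x) < D := by
  obtain ⟨C, hC, hg⟩ := h.exists_gauge_le
  obtain ⟨R, hR⟩ := hE.subset_closedBall 0
  refine ⟨C * (2 * |R|) + 1, by positivity, fun x hx y hy => ?_⟩
  have h1 : ‖x‖ ≤ R := by simpa using hR hx
  have h2 : ‖y‖ ≤ R := by simpa using hR hy
  have h3 : ‖y - x‖ ≤ 2 * |R| := by
    have := norm_sub_le y x
    have := le_abs_self R
    linarith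
  have := hg (y - x)
  have := mul_le_mul_of_nonneg_left h3 hC.le
  linarith

lemma Good.volume_pos (h : Good K) : volume K ≠ 0 := (h.isOpen.measure_pos _ h.ne).ne'

lemma Good.volume_ne_top (h : Good K) : volume K ≠ ∞ := h.bdd.measure_lt_top.ne

/-- total measure of the chosen copies -/
noncomputable def tot (K : Set (V n)) (δ : V n → ℝ) (P : Finset (V n)) : ℝ≥0∞ :=
  ∑ x ∈ P, volume (body K x (δ x))

/-- `B` has a finite disjoint subfamily of total measure at least `|B| / C` -/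
def Sel (K : Set (V n)) (δ : V n → ℝ) (C : ℝ≥0∞) (B : Set (V n)) : Prop :=
  ∃ P : Finset (V n), (P : Set (V n)) ⊆ B ∧
    (P : Set (V n)).PairwiseDisjoint (fun x => body K x (δ x)) ∧ volume B ≤ C * tot K δ P

lemma Sel.mono_const {δ : V n → ℝ} {C C' : ℝ≥0∞} {B : Set (V n)} (h : Sel K δ C B)
    (hC : C ≤ C') : Sel K δ C' B := by
  obtain ⟨P, h1, h2, h3⟩ := h
  exact ⟨P, h1, h2, h3.trans (by gcongr)⟩

/-- greedy selection over well separated groups of scales -/
lemma Good.greedy (h : Good K) (δ : V n → ℝ) (C : ℝ≥0∞) (σ : ℝ) (hσ : 0 < σ)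
    (A : ℕ → Set (V n)) (hpos : ∀ i, ∀ x ∈ A i, 0 < δ x)
    (hsep : ∀ i j, i < j → ∀ x ∈ A i, ∀ y ∈ A j, δ y ≤ σ * δ x)
    (hsel : ∀ i, ∀ B ⊆ A i, Sel K δ C B) (m : ℕ) :
    Sel K δ (C + ENNReal.ofReal ((1 + σ) ^ n)) (⋃ i < m, A i) := by
  classical
  have key : ∀ m : ℕ, ∃ P : Finset (V n), (P : Set (V n)) ⊆ (⋃ i < m, A i) ∧
      (P : Set (V n)).PairwiseDisjoint (fun x => body K x (δ x)) ∧
      volume ((⋃ i < m, A i) \ ⋃ x ∈ P, body K x ((1 + σ) * δ x)) ≤ C * tot K δ P := by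
    intro m
    induction m with
    | zero => exact ⟨∅, by simp, by simp, by simp⟩
    | succ m ih =>
      obtain ⟨P, hP, hd, hv⟩ := ih
      obtain ⟨P', hP', hd', hv'⟩ :=
        hsel m (A m \ ⋃ x ∈ P, body K x ((1 + σ) * δ x)) Set.sdiff_subset
      have hcross : ∀ x ∈ P, ∀ y ∈ P', Disjoint (body K x (δ x)) (body K y (δ y)) := by
        intro x hx y hy
        have hy' := hP' (Finset.mem_coe.2 hy)
        obtain ⟨i, hi⟩ := Set.mem_iUnion.1 (hP (Finset.mem_coe.2 hx))
        obtain ⟨him, hxi⟩ := Set.mem_iUnion.1 hi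
        have hx0 := hpos i x hxi
        have hy0 := hpos m y hy'.1
        have hs := hsep i m him x hxi y hy'.1
        apply h.disjoint_body hx0 hy0
        have : y ∉ body K x ((1 + σ) * δ x) := fun hh =>
          hy'.2 (Set.mem_biUnion (Finset.mem_coe.2 hx) hh)
        rw [h.mem_body (by positivity)] at this
        push Not at this
        linarith
      have hdisj : Disjoint P P' := by
        rw [Finset.disjoint_left]
        intro x hx hx'
        have hy' := hP' (Finset.mem_coe.2 hx')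
        have hx0 := hpos m x hy'.1
        exact Set.disjoint_left.1 (hcross x hx x hx') (h.self_mem_body x hx0)
          (h.self_mem_body x hx0)
      refine ⟨P ∪ P', ?_, ?_, ?_⟩
      · intro x hx
        rw [Finset.coe_union] at hx
        rcases hx with hx | hx
        · obtain ⟨i, hi⟩ := Set.mem_iUnion.1 (hP hx)
          obtain ⟨him, hxi⟩ := Set.mem_iUnion.1 hi
          exact Set.mem_biUnion (show i ∈ {i | i < m + 1} from Nat.lt_succ_of_lt him) hxi
        · exact Set.mem_biUnion (show m ∈ {i | i < m + 1} from Nat.lt_succ_self m) (hP' hx).1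
      · rw [Finset.coe_union]
        refine hd.union hd' ?_
        intro x hx y hy _
        exact hcross x hx y hy
      · have hsub : ((⋃ i < m + 1, A i) \ ⋃ x ∈ P ∪ P', body K x ((1 + σ) * δ x)) ⊆
            ((⋃ i < m, A i) \ ⋃ x ∈ P, body K x ((1 + σ) * δ x)) ∪
              (A m \ ⋃ x ∈ P, body K x ((1 + σ) * δ x)) := by
          rintro z ⟨hz, hz'⟩
          have hz'' : z ∉ ⋃ x ∈ P, body K x ((1 + σ) * δ x) := by
            intro hh
            apply hz'
            simp only [Set.mem_iUnion] at hh ⊢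
            obtain ⟨x, hx, hh⟩ := hh
            exact ⟨x, Finset.mem_union_left _ hx, hh⟩
          simp only [Set.mem_iUnion] at hz
          obtain ⟨i, hi, hzi⟩ := hz
          rcases Nat.lt_succ_iff_lt_or_eq.1 hi with hi | rfl
          · exact Or.inl ⟨Set.mem_biUnion (show i ∈ {i | i < m} from hi) hzi, hz''⟩
          · exact Or.inr ⟨hzi, hz''⟩
        calc _ ≤ _ := measure_mono hsub
          _ ≤ _ := measure_union_le _ _
          _ ≤ C * tot K δ P + C * tot K δ P' := add_le_add hv hv'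
          _ = C * tot K δ (P ∪ P') := by
            rw [← mul_add, tot, tot, tot, Finset.sum_union hdisj]
  obtain ⟨P, hP, hd, hv⟩ := key m
  refine ⟨P, hP, hd, ?_⟩
  have h2 : volume (⋃ x ∈ P, body K x ((1 + σ) * δ x)) ≤
      ENNReal.ofReal ((1 + σ) ^ n) * tot K δ P := by
    refine (measure_biUnion_finset_le P _).trans ?_
    rw [tot, Finset.mul_sum]
    refine Finset.sum_le_sum fun x hx => ?_
    obtain ⟨i, hi⟩ := Set.mem_iUnion.1 (hP (Finset.mem_coe.2 hx))
    obtain ⟨him, hxi⟩ := Set.mem_iUnion.1 hi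
    have hx0 := hpos i x hxi
    rw [volume_body _ _ (by positivity), volume_body _ _ hx0.le, mul_pow,
      ENNReal.ofReal_mul (by positivity), mul_assoc]
  calc volume (⋃ i < m, A i) ≤ volume (((⋃ i < m, A i) \ ⋃ x ∈ P, body K x ((1 + σ) * δ x)) ∪
        ⋃ x ∈ P, body K x ((1 + σ) * δ x)) := measure_mono (Set.subset_sdiff_union _ _)
    _ ≤ _ := measure_union_le _ _
    _ ≤ C * tot K δ P + ENNReal.ofReal ((1 + σ) ^ n) * tot K δ P := add_le_add hv h2
    _ = _ := by rw [add_mul]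

/-- the reduction to classes of scales -/
lemma Good.engine (h : Good K) (q : ℝ) (hq : 1 < q) (L : ℕ) (hL : 0 < L) (D : ℕ)
    (cls grp : ℕ → ℕ) (hcls : ∀ j, cls j < L)
    (hsep : ∀ j j', cls j = cls j' → grp j < grp j' → j + D + 1 ≤ j')
    (C : ℝ≥0∞)
    (hsel : ∀ (M : ℝ), 0 < M → ∀ (r g : ℕ) (δ : V n → ℝ) (B : Set (V n)), Bornology.IsBounded B →
      (∀ x ∈ B, ∃ j, cls j = r ∧ grp j = g ∧ M / q ^ (j + 1) < δ x ∧ δ x ≤ M / q ^ j) →
      Sel K δ C B)
    (E : Set (V n)) (hE : Bornology.IsBounded E) (δ : V n → ℝ) (hδ : ∀ x ∈ E, 0 < δ x) :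
    Sel K δ (2 * L * (C + ENNReal.ofReal ((1 + (q ^ D)⁻¹) ^ n))) E := by
  classical
  have hq0 : 0 < q := by linarith
  obtain ⟨M, hM, hMb⟩ := h.exists_bound hE
  set C' := C + ENNReal.ofReal ((1 + (q ^ D)⁻¹) ^ n) with hC'
  have hC1 : 1 ≤ C' := by
    refine le_add_left ?_
    rw [ENNReal.one_le_ofReal]
    exact one_le_pow₀ (by have : 0 < (q ^ D)⁻¹ := by positivity
                          linarith)
  have hL1 : (1 : ℝ≥0∞) ≤ L := by exact_mod_cast hL
  by_cases hbig : ∃ x ∈ E, M < δ x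
  · obtain ⟨x, hx, hxM⟩ := hbig
    refine ⟨{x}, by simpa using hx, by simp, ?_⟩
    have : E ⊆ body K x (δ x) := fun y hy => by
      rw [h.mem_body (hδ x hx)]; exact (hMb x hx y hy).trans hxM
    calc volume E ≤ 1 * volume (body K x (δ x)) := by rw [one_mul]; exact measure_mono this
      _ ≤ _ := by
        rw [tot, Finset.sum_singleton]
        gcongr
        calc (1 : ℝ≥0∞) = 1 * 1 * 1 := by simp
          _ ≤ 2 * L * C' := by gcongr; norm_num
  push Not at hbig
  let A : ℕ → ℕ → Set (V n) := fun r g =>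
    {x ∈ E | ∃ j, cls j = r ∧ grp j = g ∧ M / q ^ (j + 1) < δ x ∧ δ x ≤ M / q ^ j}
  have hcov : E ⊆ ⋃ r ∈ Finset.range L, ⋃ g, A r g := by
    intro x hx
    have hx0 := hδ x hx
    obtain ⟨j, hj1, hj2⟩ := exists_nat_pow_near (x := M / δ x) (y := q)
      (by rw [le_div_iff₀ hx0]; simpa using hbig x hx) hq
    simp only [Set.mem_iUnion]
    refine ⟨cls j, Finset.mem_range.2 (hcls j), grp j, hx, j, rfl, rfl, ?_, ?_⟩
    · rw [div_lt_iff₀ hx0] at hj2
      rw [div_lt_iff₀ (by positivity)]; linarith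
    · rw [le_div_iff₀ hx0] at hj1
      rw [le_div_iff₀ (by positivity)]; linarith
  obtain ⟨r, -, hr⟩ := Finset.exists_max_image (Finset.range L)
    (fun r => volume (⋃ g, A r g)) ⟨0, Finset.mem_range.2 hL⟩
  have h1 : volume E ≤ L * volume (⋃ g, A r g) := by
    refine (measure_mono hcov).trans ((measure_biUnion_finset_le _ _).trans ?_)
    refine (Finset.sum_le_card_nsmul _ _ _ hr).trans ?_
    simp
  have hfin : volume (⋃ g, A r g) ≠ ∞ := by
    refine ((measure_mono ?_).trans_lt hE.measure_lt_top).ne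
    exact Set.iUnion_subset fun g x hx => hx.1
  obtain ⟨m, hm⟩ : ∃ m : ℕ, volume (⋃ g, A r g) ≤ 2 * volume (⋃ g < m, A r g) := by
    by_cases h0 : volume (⋃ g, A r g) = 0
    · exact ⟨0, by simp [h0]⟩
    have hmono : Monotone fun m : ℕ => ⋃ g < m, A r g := by
      intro a b hab
      exact Set.biUnion_subset_biUnion_left fun g (hg : g < a) => lt_of_lt_of_le hg hab
    have hU : (⋃ m : ℕ, ⋃ g < m, A r g) = ⋃ g, A r g := by
      ext x
      simp only [Set.mem_iUnion]
      exact ⟨fun ⟨_, g, _, hx⟩ => ⟨g, hx⟩, fun ⟨g, hx⟩ => ⟨g + 1, g, Nat.lt_succ_self g, hx⟩⟩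
    have hlt : volume (⋃ g, A r g) / 2 < ⨆ m : ℕ, volume (⋃ g < m, A r g) := by
      rw [← hmono.measure_iUnion, hU]
      exact ENNReal.half_lt_self h0 hfin
    obtain ⟨m, hm⟩ := lt_iSup_iff.1 hlt
    refine ⟨m, ?_⟩
    rw [ENNReal.div_lt_iff (by simp) (by simp)] at hm
    rw [mul_comm]; exact hm.le
  obtain ⟨P, hP, hd, hv⟩ := h.greedy δ C (q ^ D)⁻¹ (by positivity) (A r)
    (fun i x hx => hδ x hx.1)
    (by
      rintro g g' hgg x ⟨-, j, hj, hg, hx1, -⟩ y ⟨-, j', hj', hg', -, hy2⟩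
      have hjj := hsep j j' (hj.trans hj'.symm) (by rw [hg, hg']; exact hgg)
      have h3 : M / q ^ j' ≤ M / q ^ (j + D + 1) := by
        gcongr
        exact hq.le
      have h4 : M / q ^ (j + D + 1) = (q ^ D)⁻¹ * (M / q ^ (j + 1)) := by
        field_simp; ring
      have h5 : (q ^ D)⁻¹ * (M / q ^ (j + 1)) ≤ (q ^ D)⁻¹ * δ x :=
        mul_le_mul_of_nonneg_left hx1.le (by positivity)
      linarith)
    (fun g B hB => hsel M hM r g δ B (hE.subset fun x hx => (hB hx).1) fun x hx => (hB hx).2) m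
  refine ⟨P, fun x hx => ?_, hd, ?_⟩
  · obtain ⟨i, hi⟩ := Set.mem_iUnion.1 (hP hx)
    obtain ⟨-, hxi⟩ := Set.mem_iUnion.1 hi
    exact hxi.1
  · calc volume E ≤ L * (2 * (C' * tot K δ P)) := h1.trans (by gcongr; exact hm.trans (by gcongr))
      _ = _ := by ring

lemma inv_le_covConst (C : ℝ≥0∞) (hC : C ≠ ∞)
    (hsel : ∀ E : Set (V n), Bornology.IsBounded E → ∀ δ : V n → ℝ, (∀ x ∈ E, 0 < δ x) →
      Sel K δ C E) : C⁻¹ ≤ covConst K := by
  apply le_sSup
  intro E hE δ hδ
  obtain ⟨P, hP, hd, hv⟩ := hsel E hE.isBounded δ hδ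
  refine ⟨P, P.countable_toSet, hP, hd, ?_⟩
  have : ∑' x : (P : Set (V n)), volume (body K x (δ x)) = tot K δ P :=
    Finset.tsum_subtype P (fun x => volume (body K x (δ x)))
  rw [this]
  by_cases h0 : C = 0
  · subst h0
    have : volume E = 0 := by simpa using hv
    simp [this]
  · rw [ENNReal.inv_mul_le_iff h0 hC]; exact hv

/-- moving centres from the closure into the set -/
lemma Good.perturb (h : Good K) {ι : Type} (s : Finset ι) (c : ι → V n) (r : ι → ℝ)
    (δ : V n → ℝ) (B : Set (V n)) (lam : ℝ) (hlam : 0 < lam)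
    (hr : ∀ i ∈ s, 0 < r i)
    (hd : (s : Set ι).PairwiseDisjoint (fun i => body K (c i) (r i)))
    (hc : ∀ i ∈ s, ∃ ε > 0, c i ∈ closure {x ∈ B | r i ≤ lam * δ x ∧ ε + δ x ≤ r i}) :
    ∃ P : Finset (V n), (P : Set (V n)) ⊆ B ∧
      (P : Set (V n)).PairwiseDisjoint (fun x => body K x (δ x)) ∧
      ∑ i ∈ s, volume (body K (c i) (r i)) ≤ ENNReal.ofReal (lam ^ n) * tot K δ P := by
  classical
  have key : ∀ i ∈ s, ∃ x ∈ B, r i ≤ lam * δ x ∧ 0 < δ x ∧
      body K x (δ x) ⊆ body K (c i) (r i) := by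
    intro i hi
    obtain ⟨ε, hε, hcl⟩ := hc i hi
    obtain ⟨x, hx1, hx2, hx3, hx4⟩ := mem_closure_iff.1 hcl (body K (c i) ε)
      (h.isOpen_body _ hε) (h.self_mem_body _ hε)
    have hx0 : 0 < δ x := by
      have := hr i hi
      by_contra hneg
      push Not at hneg
      have := mul_nonpos_of_nonneg_of_nonpos hlam.le hneg
      linarith
    exact ⟨x, hx2, hx3, hx0, h.body_subset hε hx0 hx1 hx4⟩
  choose! x hxB hx1 hx0 hx2 using key
  have hinj : Set.InjOn x s := by
    intro i hi j hj hij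
    by_contra hne
    have h1 := hx2 i hi (h.self_mem_body _ (hx0 i hi))
    have h2 := hx2 j hj (h.self_mem_body _ (hx0 j hj))
    rw [← hij] at h2
    exact Set.disjoint_left.1 (hd hi hj hne) h1 h2
  refine ⟨s.image x, ?_, ?_, ?_⟩
  · intro y hy
    rw [Finset.coe_image] at hy
    obtain ⟨i, hi, rfl⟩ := hy
    exact hxB i hi
  · rw [Finset.coe_image]
    rintro _ ⟨i, hi, rfl⟩ _ ⟨j, hj, rfl⟩ hne
    have hij : i ≠ j := fun e => hne (by rw [e])
    exact (hd hi hj hij).mono (hx2 i hi) (hx2 j hj)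
  · rw [tot, Finset.sum_image hinj, Finset.mul_sum]
    refine Finset.sum_le_sum fun i hi => ?_
    rw [volume_body _ _ (hr i hi).le, volume_body _ _ (hx0 i hi).le, ← mul_assoc,
      ← ENNReal.ofReal_mul (by positivity), ← mul_pow]
    gcongr
    · exact (hr i hi).le
    · exact hx1 i hi

/-- averaging over translations -/
lemma exists_translate {ι : Type} (s : Finset ι) (p : ι → V n) (A T : Set (V n))
    (hA : MeasurableSet A) (hT : MeasurableSet T) (hT0 : volume T ≠ 0) (hT1 : volume T ≠ ∞)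
    (hAT : ∀ i ∈ s, ∀ t, t + p i ∈ A → t ∈ T) [∀ t, DecidablePred fun i => t + p i ∈ A] :
    ∃ t : V n, (s.card : ℝ≥0∞) * volume A ≤
      ((s.filter fun i => t + p i ∈ A).card : ℝ≥0∞) * volume T := by
  let f : V n → ℝ≥0∞ := fun t => ∑ i ∈ s, ((fun t => t + p i) ⁻¹' A).indicator 1 t
  have hf : ∀ t, f t = ((s.filter fun i => t + p i ∈ A).card : ℝ≥0∞) := by
    intro t
    simp only [f, Set.indicator, Set.mem_preimage, Pi.one_apply]
    rw [Finset.card_filter]
    push_cast
    rfl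
  have hm : ∀ i, MeasurableSet ((fun t => t + p i) ⁻¹' A) := fun i =>
    (measurable_add_const _) hA
  have hint : ∫⁻ t in T, f t = (s.card : ℝ≥0∞) * volume A := by
    simp only [f]
    rw [lintegral_finsetSum _ fun i _ => measurable_one.indicator (hm i)]
    rw [Finset.sum_congr rfl (g := fun _ => volume A)]
    · simp
    · intro i hi
      have hsub : ((fun t => t + p i) ⁻¹' A) ⊆ T := fun t ht => hAT i hi t ht
      rw [lintegral_indicator_one (hm i), Measure.restrict_apply (hm i),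
        Set.inter_eq_left.2 hsub, measure_preimage_add_right]
  have hne : ∫⁻ t in T, f t ≠ ∞ := by
    refine ne_top_of_le_ne_top (b := ∫⁻ _ in T, (s.card : ℝ≥0∞)) ?_ ?_
    · simp only [lintegral_const, MeasurableSet.univ, Measure.restrict_apply, univ_inter]
      exact ENNReal.mul_ne_top (by simp) hT1
    · refine lintegral_mono fun t => ?_
      rw [hf]
      exact Nat.cast_le.2 (Finset.card_filter_le _ _)
  obtain ⟨t, -, ht⟩ := exists_setLAverage_le hT0 hT.nullMeasurableSet hne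
  refine ⟨t, ?_⟩
  rw [setLAverage_eq, hint, hf, ENNReal.div_le_iff hT0 hT1] at ht
  exact ht

end Pool.Agent.MP_9210c2_an
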