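import Pool.Agent.MP_9210c2_an.Fourier

namespace Pool.Agent.MP_9210c2_an

open Finset

variable {n : ℕ}

abbrev Cel (n : ℕ) := (_ : ℕ) × (Fin n → ℤ)

noncomputable def cell (β : Cel n) : Finset (Fin n → ℤ) :=
  Fintype.piFinset fun l => Icc (β.2 l - hh β.1) (β.2 l + hh β.1)

def Cong (β : Cel n) (u : Fin n → ℤ) : Prop := ∀ l, (3 : ℤ) ^ β.1 ∣ β.2 l - u l

instance (β : Cel n) (u : Fin n → ℤ) : Decidable (Cong β u) := by unfold Cong; infer_instance

def Touch (β γ : Cel n) : Prop := ∀ l, 2 * |β.2 l - γ.2 l| < 3 ^ β.1 + 3 ^ γ.1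

instance (β γ : Cel n) : Decidable (Touch β γ) := by unfold Touch; infer_instance

lemma two_mul_hh' (r : ℕ) : 2 * (hh r : ℤ) + 1 = 3 ^ r := by exact_mod_cast two_mul_hh r

lemma card_cell (β : Cel n) : (cell β).card = (3 ^ β.1) ^ n := by
  rw [cell, Fintype.card_piFinset]
  have : ∀ l, (Icc (β.2 l - hh β.1) (β.2 l + hh β.1)).card = 3 ^ β.1 := by
    intro l
    rw [Int.card_Icc, ← two_mul_hh]
    omega
  simp [this]

lemma touch_of_mem {β γ : Cel n} {m : Fin n → ℤ} (h1 : m ∈ cell β) (h2 : m ∈ cell γ) :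
    Touch β γ := by
  intro l
  have h3 := mem_Icc.1 (Fintype.mem_piFinset.1 h1 l)
  have h4 := mem_Icc.1 (Fintype.mem_piFinset.1 h2 l)
  rw [← two_mul_hh', ← two_mul_hh']
  have : |β.2 l - γ.2 l| ≤ hh β.1 + hh γ.1 := abs_le.2 ⟨by omega, by omega⟩
  omega

lemma exists_off {a r : ℕ} {k k' u : Fin n → ℤ} (h1 : Cong ⟨a, k⟩ u) (h2 : Cong ⟨a + r, k'⟩ u)
    (ht : Touch ⟨a, k⟩ ⟨a + r, k'⟩) :
    ∃ m ∈ Fintype.piFinset fun _ : Fin n => range (3 ^ r), k' - k + off a r m = 0 := by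
  have : ∀ l, ∃ m ∈ range (3 ^ r), k' l - k l + 3 ^ a * ((m : ℤ) - hh r) = 0 := by
    intro l
    have e1 : (3 : ℤ) ^ a ∣ k l - u l := h1 l
    have e2 : (3 : ℤ) ^ a ∣ k' l - u l := (pow_dvd_pow 3 (Nat.le_add_right a r)).trans (h2 l)
    obtain ⟨e, he⟩ := dvd_sub e1 e2
    have e3 : k l - k' l = 3 ^ a * e := by rw [← he]; ring
    have e4 : 2 * |k l - k' l| < 3 ^ a + 3 ^ (a + r) := ht l
    have hp : (0 : ℤ) < 3 ^ a := by positivity
    rw [e3, abs_mul, abs_of_pos hp, pow_add, ← two_mul_hh' r] at e4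
    have e5 : |e| < hh r + 1 := by
      by_contra hc
      push Not at hc
      nlinarith
    have e6 := abs_lt.1 e5
    refine ⟨(e + hh r).toNat, ?_, ?_⟩
    · rw [mem_range, ← two_mul_hh]; omega
    · rw [Int.toNat_of_nonneg (by omega)]
      linear_combination (-1 : ℤ) * e3
  choose m hm1 hm2 using this
  exact ⟨m, Fintype.mem_piFinset.2 hm1, funext hm2⟩

lemma cell_subset {a r : ℕ} {k k' u : Fin n → ℤ} (h1 : Cong ⟨a, k⟩ u) (h2 : Cong ⟨a + r, k'⟩ u)
    (ht : Touch ⟨a, k⟩ ⟨a + r, k'⟩) : cell ⟨a, k⟩ ⊆ cell ⟨a + r, k'⟩ := by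
  obtain ⟨m, hm, he⟩ := exists_off h1 h2 ht
  intro x hx
  refine Fintype.mem_piFinset.2 fun l => ?_
  have h3 := mem_Icc.1 (Fintype.mem_piFinset.1 hx l)
  have h4 : m l < 3 ^ r := mem_range.1 (Fintype.mem_piFinset.1 hm l)
  have h5 : k' l - k l + 3 ^ a * ((m l : ℤ) - hh r) = 0 := congrFun he l
  have h6 : 2 * (hh (a + r) : ℤ) + 1 = 3 ^ a * (2 * hh r + 1) := by
    rw [two_mul_hh', two_mul_hh', pow_add]
  have h7 := two_mul_hh' a
  rw [← two_mul_hh] at h4
  have h8 : (m l : ℤ) ≤ 2 * hh r := by omega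
  have hp : (0 : ℤ) < 3 ^ a := by positivity
  have h9 : (0 : ℤ) ≤ m l := by positivity
  simp only at h3
  rw [mem_Icc]
  constructor <;> nlinarith

noncomputable def shifts (n A : ℕ) : Finset (Fin n → ℤ) := Fintype.piFinset fun _ => Ico (0 : ℤ) (3 ^ A)

lemma card_shifts (n A : ℕ) : (shifts n A).card = (3 ^ A) ^ n := by
  rw [shifts, Fintype.card_piFinset]
  have : (Ico (0 : ℤ) (3 ^ A)).card = 3 ^ A := by
    rw [Int.card_Ico, sub_zero]
    exact_mod_cast Int.toNat_natCast (3 ^ A)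
  simp [this]

lemma card_cong {A : ℕ} (β : Cel n) (h : β.1 ≤ A) :
    ((shifts n A).filter fun u => Cong β u).card = (3 ^ (A - β.1)) ^ n := by
  have h1 : ((shifts n A).filter fun u => Cong β u) = Fintype.piFinset fun l =>
      (Ico (0 : ℤ) (3 ^ A)).filter fun t => t ≡ β.2 l [ZMOD 3 ^ β.1] := by
    ext u
    rw [mem_filter]
    simp only [shifts, mem_filter, Fintype.mem_piFinset, Cong, Int.modEq_iff_dvd, forall_and]
  rw [h1, Fintype.card_piFinset]
  have : ∀ l, ((Ico (0 : ℤ) (3 ^ A)).filter fun t => t ≡ β.2 l [ZMOD 3 ^ β.1]).card =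
      3 ^ (A - β.1) := by
    intro l
    have h2 := Int.Ico_filter_modEq_card (0 : ℤ) (3 ^ A) (r := 3 ^ β.1) (by positivity) (β.2 l)
    have h3 : (((3 : ℤ) ^ A : ℤ) - (β.2 l : ℚ)) / ((3 ^ β.1 : ℤ) : ℚ) =
        (((0 : ℤ) : ℚ) - (β.2 l : ℚ)) / ((3 ^ β.1 : ℤ) : ℚ) + ((3 ^ (A - β.1) : ℕ) : ℚ) := by
      have : (3 : ℚ) ^ A = 3 ^ (A - β.1) * 3 ^ β.1 := by rw [← pow_add, Nat.sub_add_cancel h]
      push_cast
      rw [this]; field_simp; ring
    rw [h3, Int.ceil_add_natCast, add_sub_cancel_left, max_eq_left (by positivity)] at h2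
    exact_mod_cast h2
  simp [this]

lemma sum_symm (f : ℕ → ℕ → ℝ) (hf : ∀ a b, f a b = f b a) (A : ℕ) :
    ∑ a ∈ range A, ∑ b ∈ range A, f a b =
      ∑ b ∈ range A, (f b b + 2 * ∑ a ∈ range b, f a b) := by
  induction A with
  | zero => simp
  | succ A ih =>
    rw [sum_range_succ, sum_range_succ, sum_range_succ, ← ih]
    simp only [sum_range_succ, sum_add_distrib]
    rw [sum_congr rfl fun b _ => hf A b]
    ring

noncomputable def cc (A : ℕ) (β γ : Cel n) : ℕ :=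
  (cell β ∩ cell γ).card * ((shifts n A).filter fun u => Cong β u ∧ Cong γ u).card

lemma cc_comm (A : ℕ) (β γ : Cel n) : cc A β γ = cc A γ β := by
  simp only [cc, inter_comm, and_comm]

lemma cc_le {A a r : ℕ} (h : a + r ≤ A) (k k' : Fin n → ℤ) :
    cc A ⟨a, k⟩ ⟨a + r, k'⟩ * (3 ^ r) ^ n ≤ (3 ^ A) ^ n *
      ∑ m ∈ Fintype.piFinset fun _ : Fin n => range (3 ^ r),
        if k' - k + off a r m = 0 then 1 else 0 := by
  rcases (cell ⟨a, k⟩ ∩ cell ⟨a + r, k'⟩).eq_empty_or_nonempty with h1 | ⟨x, hx⟩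
  · simp [cc, h1]
  rcases ((shifts n A).filter fun u =>
    Cong ⟨a, k⟩ u ∧ Cong ⟨a + r, k'⟩ u).eq_empty_or_nonempty with h2 | ⟨u, hu⟩
  · simp [cc, h2]
  obtain ⟨m, hm, he⟩ := exists_off (mem_filter.1 hu).2.1 (mem_filter.1 hu).2.2
    (touch_of_mem (mem_inter.1 hx).1 (mem_inter.1 hx).2)
  have h3 : 1 ≤ ∑ m ∈ Fintype.piFinset fun _ : Fin n => range (3 ^ r),
      if k' - k + off a r m = 0 then 1 else 0 := by
    refine le_trans ?_ (single_le_sum (f := fun m => if k' - k + off a r m = 0 then 1 else 0)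
      (fun _ _ => Nat.zero_le _) hm)
    simp [he]
  have h4 : (cell ⟨a, k⟩ ∩ cell ⟨a + r, k'⟩).card ≤ (3 ^ a) ^ n :=
    (card_le_card inter_subset_left).trans (card_cell _).le
  have h5 : ((shifts n A).filter fun u => Cong ⟨a, k⟩ u ∧ Cong ⟨a + r, k'⟩ u).card ≤
      (3 ^ (A - (a + r))) ^ n := by
    refine le_trans (card_le_card ?_) (card_cong (A := A) ⟨a + r, k'⟩ h).le
    intro u hu
    exact mem_filter.2 ⟨(mem_filter.1 hu).1, (mem_filter.1 hu).2.2⟩
  calc cc A ⟨a, k⟩ ⟨a + r, k'⟩ * (3 ^ r) ^ n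
      ≤ (3 ^ a) ^ n * (3 ^ (A - (a + r))) ^ n * (3 ^ r) ^ n := by
        rw [cc]; gcongr
    _ = (3 ^ A) ^ n * 1 := by
        rw [← mul_pow, ← mul_pow, ← pow_add, ← pow_add, mul_one]
        congr 2; omega
    _ ≤ _ := by gcongr

lemma pairs_zero (G : Finset (Fin n → ℤ)) (a : ℕ) : pairs G G a 0 = G.card := by
  have : ∀ m ∈ Fintype.piFinset fun _ : Fin n => range (3 ^ 0), off a 0 m = 0 := by
    intro m hm
    funext l
    have := mem_range.1 (Fintype.mem_piFinset.1 hm l)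
    have h0 : m l = 0 := by omega
    simp [off, h0, hh]
  rw [pairs, card_eq_sum_ones]
  refine sum_congr rfl fun k hk => ?_
  rw [sum_congr rfl fun k' _ => sum_congr rfl fun m hm => by rw [this m hm]]
  simp [sub_eq_zero, hk]

theorem grid_select (G : ℕ → Finset (Fin n → ℤ)) (U : Finset (Fin n → ℤ)) (hU : ∀ i, G i ⊆ U)
    (hd : ∀ i j, i ≠ j → Disjoint (G i) (G j)) (κ A : ℕ) (hA : A ≤ 2 ^ (κ + 1))
    (hU' : U ⊆ (range A).biUnion G) :
    ∃ S : Finset (Cel n), (∀ β ∈ S, β.1 < A ∧ β.2 ∈ G β.1) ∧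
      (∀ β ∈ S, ∀ γ ∈ S, β ≠ γ → ¬ Touch β γ) ∧
      U.card ≤ 16 * (κ + 1) ^ 2 * ∑ β ∈ S, (3 ^ β.1) ^ n := by
  classical
  set T : Finset (Cel n) := (range A).sigma G with hT
  have hTm : ∀ β ∈ T, β.1 < A ∧ β.2 ∈ G β.1 := fun β hβ =>
    ⟨mem_range.1 (mem_sigma.1 hβ).1, (mem_sigma.1 hβ).2⟩
  set C : ℝ := 16 * (κ + 1) ^ 2 with hC
  have hC0 : 0 < C := by positivity
  let Sl : (Fin n → ℤ) → Finset (Cel n) := fun u => T.filter fun β => Cong β u
  let M : (Fin n → ℤ) → Finset (Fin n → ℤ) := fun u => (Sl u).biUnion cell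
  let W : (Fin n → ℤ) → ℝ := fun u => ∑ β ∈ Sl u, ((cell β).card : ℝ)
  let Q : (Fin n → ℤ) → ℝ := fun u => ∑ β ∈ Sl u, ∑ γ ∈ Sl u, ((cell β ∩ cell γ).card : ℝ)
  have h1 : ∀ u, 2 * C * W u - Q u ≤ C ^ 2 * (M u).card := by
    intro u
    have hind : ∀ s : Finset (Fin n → ℤ), s ⊆ M u →
        (s.card : ℝ) = ∑ m ∈ M u, if m ∈ s then (1 : ℝ) else 0 := by
      intro s hs
      rw [sum_ite_mem, inter_eq_right.2 hs]; simp
    have hW : W u = ∑ m ∈ M u, ∑ β ∈ Sl u, if m ∈ cell β then (1 : ℝ) else 0 := by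
      rw [sum_comm]
      exact sum_congr rfl fun β hβ => hind _ (subset_biUnion_of_mem cell hβ)
    have hQ : Q u = ∑ m ∈ M u, (∑ β ∈ Sl u, if m ∈ cell β then (1 : ℝ) else 0) ^ 2 := by
      simp only [sq, sum_mul_sum]
      rw [sum_comm]
      refine sum_congr rfl fun β hβ => ?_
      rw [sum_comm]
      refine sum_congr rfl fun γ _ => ?_
      rw [hind _ (inter_subset_left.trans (subset_biUnion_of_mem cell hβ))]
      refine sum_congr rfl fun m _ => ?_
      by_cases h1 : m ∈ cell β <;> by_cases h2 : m ∈ cell γ <;> simp [h1, h2]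
    rw [hW, hQ, mul_sum, ← sum_sub_distrib, card_eq_sum_ones]
    push_cast
    rw [mul_sum]
    refine sum_le_sum fun m _ => ?_
    nlinarith [sq_nonneg (C - ∑ β ∈ Sl u, if m ∈ cell β then (1 : ℝ) else 0)]
  have h2 : (3 ^ A) ^ n * (U.card : ℝ) ≤ ∑ u ∈ shifts n A, W u := by
    have e1 : ∑ u ∈ shifts n A, W u = ∑ β ∈ T, ((3 : ℝ) ^ A) ^ n := by
      simp only [W, Sl, sum_filter]
      rw [sum_comm]
      refine sum_congr rfl fun β hβ => ?_
      rw [← sum_filter, sum_const, card_cong β (hTm β hβ).1.le, card_cell, nsmul_eq_mul]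
      push_cast
      rw [← mul_pow, ← pow_add, Nat.sub_add_cancel (hTm β hβ).1.le]
    rw [e1, sum_const, nsmul_eq_mul, mul_comm]
    gcongr
    rw [hT, card_sigma]
    exact (card_le_card hU').trans card_biUnion_le
  have h3 : ∑ u ∈ shifts n A, Q u ≤ (3 ^ A) ^ n * (C * U.card) := by
    have e1 : ∑ u ∈ shifts n A, Q u = ∑ β ∈ T, ∑ γ ∈ T, (cc A β γ : ℝ) := by
      simp only [Q, Sl, sum_filter]
      rw [sum_comm]
      refine sum_congr rfl fun β _ => ?_
      have : ∀ u, (if Cong β u then ∑ γ ∈ T, (if Cong γ u then ((cell β ∩ cell γ).card : ℝ) else 0)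
          else 0) = ∑ γ ∈ T, if Cong β u ∧ Cong γ u then ((cell β ∩ cell γ).card : ℝ) else 0 := by
        intro u
        by_cases h : Cong β u <;> simp [h]
      simp only [this]
      rw [sum_comm]
      refine sum_congr rfl fun γ _ => ?_
      rw [← sum_filter, sum_const, nsmul_eq_mul, cc]
      push_cast; ring
    have e2 : ∑ β ∈ T, ∑ γ ∈ T, (cc A β γ : ℝ) = ∑ a ∈ range A, ∑ b ∈ range A,
        ∑ k ∈ G a, ∑ k' ∈ G b, (cc A ⟨a, k⟩ ⟨b, k'⟩ : ℝ) := by
      simp only [hT, sum_sigma]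
      exact sum_congr rfl fun a _ => sum_comm
    rw [e1, e2, sum_symm _ (fun a b => by
      rw [sum_comm]; simp only [cc_comm A ⟨a, _⟩])]
    refine le_trans ?_ (mul_le_mul_of_nonneg_left (second_moment G U hU hd κ A hA) (by positivity))
    rw [mul_sum]
    have e3 : ∀ a r, a + r ≤ A → ∑ k ∈ G a, ∑ k' ∈ G (a + r), (cc A ⟨a, k⟩ ⟨a + r, k'⟩ : ℝ) ≤
        (3 ^ A) ^ n * ((pairs (G a) (G (a + r)) a r : ℝ) / (3 ^ r) ^ n) := by
      intro a r h
      rw [← mul_div_assoc, le_div_iff₀ (by positivity), pairs]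
      have : (∑ k ∈ G a, ∑ k' ∈ G (a + r), cc A ⟨a, k⟩ ⟨a + r, k'⟩) * (3 ^ r) ^ n ≤ (3 ^ A) ^ n *
          ∑ k ∈ G a, ∑ k' ∈ G (a + r), ∑ m ∈ Fintype.piFinset fun _ : Fin n => range (3 ^ r),
            if k' - k + off a r m = 0 then 1 else 0 := by
        rw [sum_mul, mul_sum]
        refine sum_le_sum fun k _ => ?_
        rw [sum_mul, mul_sum]
        exact sum_le_sum fun k' _ => cc_le h k k'
      exact_mod_cast this
    refine sum_le_sum fun b hb => ?_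
    have hb' := (mem_range.1 hb).le
    rw [mul_add, mul_left_comm]
    refine add_le_add ?_ ?_
    · have := e3 b 0 hb'
      rw [add_zero, pairs_zero] at this
      simpa using this
    · refine mul_le_mul_of_nonneg_left ?_ (by norm_num)
      rw [mul_sum]
      refine sum_le_sum fun a ha => ?_
      have := e3 a (b - a) (by have := mem_range.1 ha; omega)
      rwa [Nat.add_sub_cancel' (mem_range.1 ha).le] at this
  obtain ⟨u, -, hu⟩ : ∃ u ∈ shifts n A, C * U.card ≤ C ^ 2 * (M u).card := by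
    apply exists_le_of_sum_le
    · rw [← card_pos, card_shifts]; positivity
    · refine le_trans ?_ (sum_le_sum fun u _ => h1 u)
      rw [sum_sub_distrib, sum_const, card_shifts, nsmul_eq_mul, ← mul_sum]
      push_cast
      nlinarith [mul_le_mul_of_nonneg_left h2 hC0.le]
  let S := (Sl u).filter fun β => ∀ γ ∈ Sl u, β.1 < γ.1 → ¬ Touch β γ
  have hS : ∀ β ∈ S, β ∈ Sl u := fun β hβ => (mem_filter.1 hβ).1
  refine ⟨S, fun β hβ => hTm β (mem_filter.1 (hS β hβ)).1, ?_, ?_⟩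
  · rintro ⟨a, k⟩ hβ ⟨b, k'⟩ hγ hne ht
    rcases lt_trichotomy a b with h | rfl | h
    · exact (mem_filter.1 hβ).2 _ (hS _ hγ) h ht
    · obtain ⟨m, hm, he⟩ := exists_off (r := 0) (mem_filter.1 (hS _ hβ)).2
        (mem_filter.1 (hS _ hγ)).2 ht
      apply hne
      have : k = k' := by
        funext l
        have := mem_range.1 (Fintype.mem_piFinset.1 hm l)
        have h0 : m l = 0 := by omega
        have h5 : k' l - k l + 3 ^ a * ((m l : ℤ) - hh 0) = 0 := congrFun he l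
        simp only [h0, hh] at h5
        omega
      rw [this]
    · refine (mem_filter.1 hγ).2 _ (hS _ hβ) h fun l => ?_
      have := ht l
      rw [abs_sub_comm, add_comm]; exact this
  · have e1 : M u ⊆ S.biUnion cell := by
      intro m hm
      obtain ⟨β, hβ, hmax⟩ := exists_max_image ((Sl u).filter fun β => m ∈ cell β) (fun β => β.1)
        (by
          obtain ⟨β, h1, h2⟩ := mem_biUnion.1 hm
          exact ⟨β, mem_filter.2 ⟨h1, h2⟩⟩)
      obtain ⟨hβ1, hβ2⟩ := mem_filter.1 hβ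
      refine mem_biUnion.2 ⟨β, mem_filter.2 ⟨hβ1, ?_⟩, hβ2⟩
      rintro ⟨b, k'⟩ hγ hlt ht
      obtain ⟨a, k⟩ := β
      obtain ⟨r, rfl⟩ := Nat.exists_eq_add_of_le (le_of_lt hlt)
      have := cell_subset (mem_filter.1 hβ1).2 (mem_filter.1 hγ).2 ht hβ2
      exact absurd (hmax _ (mem_filter.2 ⟨hγ, this⟩)) (not_le.2 hlt)
    have e2 : (M u).card ≤ ∑ β ∈ S, (3 ^ β.1) ^ n := by
      refine (card_le_card e1).trans (card_biUnion_le.trans (le_of_eq ?_))
      exact sum_congr rfl fun β _ => card_cell β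
    have e3 : (U.card : ℝ) ≤ C * (M u).card := by
      refine le_of_mul_le_mul_left ?_ hC0
      rw [← mul_assoc, ← sq]; exact hu
    have e4 : (U.card : ℝ) ≤ C * ((∑ β ∈ S, (3 ^ β.1) ^ n : ℕ) : ℝ) :=
      e3.trans (by gcongr)
    rw [hC] at e4
    exact_mod_cast e4

end Pool.Agent.MP_9210c2_an
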