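import Pool.Agent.MP_9210c2_an.General
import Pool.Agent.MP_9210c2_an.Grid

namespace Pool.Agent.MP_9210c2_an

open MeasureTheory Set Filter Topology
open scoped ENNReal Pointwise

variable {n : ℕ}

lemma good_cube (n : ℕ) : Good (cube n) where
  isOpen := by
    have : cube n = ⋂ i, {x : V n | |x i| < 1} := by ext x; simp [cube]
    rw [this]
    exact isOpen_iInter_of_finite fun i => isOpen_lt (by fun_prop) continuous_const
  bdd := by
    refine (Metric.isBounded_closedBall (x := (0 : V n)) (r := √n)).subset fun x hx => ?_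
    rw [mem_closedBall_zero_iff, EuclideanSpace.norm_eq]
    apply Real.sqrt_le_sqrt
    calc ∑ i, ‖x i‖ ^ 2 ≤ ∑ _i : Fin n, (1 : ℝ) := Finset.sum_le_sum fun i _ => by
          have := hx i
          rw [Real.norm_eq_abs]
          exact pow_le_one₀ (abs_nonneg _) this.le
      _ = n := by simp
  conv := by
    intro x hx y hy a b ha hb hab i
    have h1 := abs_lt.1 (hx i)
    have h2 := abs_lt.1 (hy i)
    simp only [PiLp.add_apply, PiLp.smul_apply, smul_eq_mul]
    rw [abs_lt]
    rcases ha.eq_or_lt with rfl | ha'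
    · have : b = 1 := by linarith
      subst this
      constructor <;> linarith
    · constructor <;> nlinarith
  symm := fun x hx i => by simpa using hx i
  ne := ⟨0, fun i => by simp⟩

lemma mem_body_cube {x z : V n} {r : ℝ} (hr : 0 < r) :
    z ∈ body (cube n) x r ↔ ∀ i, |z i - x i| < r := by
  constructor
  · rintro ⟨y, hy, rfl⟩ i
    have := hy i
    simp only [PiLp.add_apply, PiLp.smul_apply, smul_eq_mul, add_sub_cancel_left, abs_mul,
      abs_of_pos hr]
    nlinarith
  · intro h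
    refine ⟨r⁻¹ • (z - x), fun i => ?_, ?_⟩
    · simp only [PiLp.smul_apply, PiLp.sub_apply, smul_eq_mul, abs_mul, abs_inv, abs_of_pos hr]
      rw [inv_mul_lt_iff₀ hr]; simpa using h i
    · simp [smul_smul, mul_inv_cancel₀ hr.ne']

noncomputable def latt (h : ℝ) (k : Fin n → ℤ) : V n := WithLp.toLp 2 fun l => 2 * h * (k l : ℝ)

lemma exists_lattice (F : Set (V n)) (hF : MeasurableSet F) (hb : Bornology.IsBounded F)
    (h : ℝ) (hh : 0 < h) : ∃ (t : V n) (U : Finset (Fin n → ℤ)), (∀ k ∈ U, t + latt h k ∈ F) ∧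
      volume F ≤ 2 * U.card * (ENNReal.ofReal (h ^ n) * volume (cube n)) := by
  classical
  obtain ⟨D, hD⟩ := hb.subset_ball 0
  have h1 := (tendsto_ratio n (|D| / (2 * h))).comp tendsto_natCast_atTop_atTop
  obtain ⟨R, hR1, hR⟩ := ((h1.eventually (gt_mem_nhds (show (1 : ℝ≥0∞) < 2 by norm_num))).and
    (eventually_gt_atTop 0)).exists
  have hR' : (0 : ℝ) < R := by exact_mod_cast hR
  have hpos : 0 < 2 * h * R + |D| := by positivity
  have hT : volume (body (cube n) 0 (2 * h * R + |D|)) =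
      ENNReal.ofReal ((2 * h * R + |D|) ^ n) * volume (cube n) := volume_body _ _ hpos.le
  obtain ⟨t, ht⟩ := exists_translate (Fintype.piFinset fun _ : Fin n => Finset.Icc (-(R : ℤ)) R)
    (latt h) F (body (cube n) 0 (2 * h * R + |D|)) hF
    ((good_cube n).isOpen_body _ hpos).measurableSet
    (by
      rw [hT]
      exact mul_ne_zero (ENNReal.ofReal_pos.2 (by positivity)).ne' (good_cube n).volume_pos)
    (by rw [hT]; exact ENNReal.mul_ne_top ENNReal.ofReal_ne_top (good_cube n).volume_ne_top)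
    (by
      intro k hk t ht
      rw [mem_body_cube hpos]
      intro i
      have h2 : ‖t + latt h k‖ < D := by simpa using hD ht
      have h3 := (PiLp.norm_apply_le (t + latt h k) i).trans_lt h2
      have h4 := Finset.mem_Icc.1 (Fintype.mem_piFinset.1 hk i)
      have h5 : -(R : ℝ) ≤ k i := by exact_mod_cast h4.1
      have h6 : (k i : ℝ) ≤ R := by exact_mod_cast h4.2
      simp only [latt, PiLp.add_apply, Real.norm_eq_abs, abs_lt] at h3
      have := le_abs_self D
      simp only [PiLp.zero_apply, sub_zero, abs_lt]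
      constructor <;> nlinarith)
  refine ⟨t, (Fintype.piFinset fun _ : Fin n => Finset.Icc (-(R : ℤ)) R).filter
    fun k => t + latt h k ∈ F, fun k hk => (Finset.mem_filter.1 hk).2, ?_⟩
  set N : ℝ≥0∞ := (((Fintype.piFinset fun _ : Fin n => Finset.Icc (-(R : ℤ)) R).filter
    fun k => t + latt h k ∈ F).card : ℝ≥0∞) with hN
  have hc : (((Fintype.piFinset fun _ : Fin n => Finset.Icc (-(R : ℤ)) R).card : ℕ) : ℝ≥0∞) =
      ENNReal.ofReal ((2 * R + 1) ^ n) := by
    rw [Fintype.card_piFinset]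
    have : (Finset.Icc (-(R : ℤ)) R).card = 2 * R + 1 := by rw [Int.card_Icc]; omega
    rw [← ENNReal.ofReal_natCast]
    simp [this]
  rw [hc, hT] at ht
  have h7 : ENNReal.ofReal ((2 * h * R + |D|) ^ n) ≤
      2 * (ENNReal.ofReal ((2 * R + 1) ^ n) * ENNReal.ofReal (h ^ n)) := by
    have : (2 * h * R + |D|) = (1 + |D| / (2 * h) / R) * (2 * R * h) := by field_simp
    rw [← ENNReal.ofReal_mul (by positivity), ← mul_pow, this, mul_pow,
      ENNReal.ofReal_mul (by positivity)]
    gcongr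
    · exact hR1.le
    · linarith
  have h8 : ENNReal.ofReal ((2 * R + 1) ^ n) * volume F ≤ ENNReal.ofReal ((2 * R + 1) ^ n) *
      (2 * N * (ENNReal.ofReal (h ^ n) * volume (cube n))) := by
    calc _ ≤ _ := ht
      _ ≤ N * (2 * (ENNReal.ofReal ((2 * R + 1) ^ n) * ENNReal.ofReal (h ^ n)) *
          volume (cube n)) := by gcongr
      _ = _ := by ring
  exact (ENNReal.mul_le_mul_iff_right (ENNReal.ofReal_pos.2 (by positivity)).ne'
    ENNReal.ofReal_ne_top).1 h8

lemma group_select (q s : ℝ) (hq : 1 < q) (hs : 0 < s) (κ A : ℕ) (hA : A ≤ 2 ^ (κ + 1))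
    (δ : V n → ℝ) (B : Set (V n)) (hB : Bornology.IsBounded B)
    (hδ : ∀ x ∈ B, ∃ i < A, s * 3 ^ i / q < δ x ∧ δ x ≤ s * 3 ^ i) :
    Sel (cube n) δ (32 * (κ + 1) ^ 2 * ENNReal.ofReal ((q ^ 2) ^ n)) B := by
  classical
  have hq0 : 0 < q := by linarith
  let Bi : ℕ → Set (V n) := fun i => {x ∈ B | s * 3 ^ i / q < δ x ∧ δ x ≤ s * 3 ^ i}
  let F : Set (V n) := ⋃ i ∈ Finset.range A, closure (Bi i)
  have hBF : B ⊆ F := by
    intro x hx
    obtain ⟨i, hi, h⟩ := hδ x hx
    exact Set.mem_biUnion (Finset.mem_coe.2 (Finset.mem_range.2 hi)) (subset_closure ⟨hx, h⟩)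
  have hFm : MeasurableSet F :=
    Finset.measurableSet_biUnion _ fun i _ => isClosed_closure.measurableSet
  have hFb : Bornology.IsBounded F :=
    hB.closure.subset (Set.iUnion₂_subset fun i _ => closure_mono fun x hx => hx.1)
  obtain ⟨t, U, hU, hv⟩ := exists_lattice F hFm hFb (s * q) (by positivity)
  have hex : ∀ k ∈ U, ∃ i < A, t + latt (s * q) k ∈ closure (Bi i) := by
    intro k hk
    have := hU k hk
    simp only [F, Set.mem_iUnion] at this
    obtain ⟨i, hi, h⟩ := this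
    exact ⟨i, Finset.mem_range.1 hi, h⟩
  choose! lev hlev1 hlev2 using hex
  obtain ⟨S, hS1, hS2, hS3⟩ := grid_select (fun i => U.filter fun k => lev k = i) U
    (fun i => Finset.filter_subset _ _)
    (fun i j hij => Finset.disjoint_filter.2 fun k _ h1 h2 => hij (h1.symm.trans h2)) κ A hA
    (fun k hk => Finset.mem_biUnion.2
      ⟨lev k, Finset.mem_range.2 (hlev1 k hk), Finset.mem_filter.2 ⟨hk, rfl⟩⟩)
  obtain ⟨P, hP1, hP2, hP3⟩ := (good_cube n).perturb S (fun β => t + latt (s * q) β.2)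
    (fun β => s * q * 3 ^ β.1) δ B (q ^ 2) (by positivity) (fun _ _ => by positivity)
    (by
      intro β hβ γ hγ hne
      have := hS2 β hβ γ hγ hne
      simp only [Touch, not_forall, not_lt] at this
      obtain ⟨l, hl⟩ := this
      have hl' : (3 : ℝ) ^ β.1 + 3 ^ γ.1 ≤ 2 * |(β.2 l : ℝ) - γ.2 l| := by exact_mod_cast hl
      rw [Function.onFun, Set.disjoint_left]
      intro z h1 h2
      have h3 := (mem_body_cube (by positivity)).1 h1 l
      have h4 := (mem_body_cube (by positivity)).1 h2 l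
      simp only [latt, PiLp.add_apply, abs_lt] at h3 h4
      have hsq : 0 < s * q := by positivity
      have h5 := mul_le_mul_of_nonneg_left hl' hsq.le
      rcases abs_cases ((β.2 l : ℝ) - γ.2 l) with h | h <;> rw [h.1] at h5 <;> nlinarith)
    (by
      intro β hβ
      obtain ⟨-, h2⟩ := hS1 β hβ
      obtain ⟨h3, h4⟩ := Finset.mem_filter.1 h2
      have h5 := hlev2 _ h3
      rw [h4] at h5
      have h30 : (0 : ℝ) < s * 3 ^ β.1 := by positivity
      refine ⟨s * 3 ^ β.1 * (q - 1), mul_pos h30 (by linarith), closure_mono ?_ h5⟩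
      rintro x ⟨hx, h6, h7⟩
      rw [div_lt_iff₀ hq0] at h6
      refine ⟨hx, ?_, ?_⟩ <;> nlinarith)
  refine ⟨P, hP1, hP2, ?_⟩
  have e1 : ∑ β ∈ S, volume (body (cube n) (t + latt (s * q) β.2) (s * q * 3 ^ β.1)) =
      ((∑ β ∈ S, (3 ^ β.1) ^ n : ℕ) : ℝ≥0∞) *
        (ENNReal.ofReal ((s * q) ^ n) * volume (cube n)) := by
    push_cast
    rw [Finset.sum_mul]
    refine Finset.sum_congr rfl fun β _ => ?_
    rw [volume_body _ _ (by positivity), mul_pow, ENNReal.ofReal_mul (by positivity),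
      ENNReal.ofReal_pow (by positivity), ENNReal.ofReal_pow (by positivity),
      ENNReal.ofReal_pow (by positivity)]
    simp only [ENNReal.ofReal_ofNat]
    ring
  have e2 : (U.card : ℝ≥0∞) ≤ 16 * (κ + 1) ^ 2 * ((∑ β ∈ S, (3 ^ β.1) ^ n : ℕ) : ℝ≥0∞) := by
    exact_mod_cast hS3
  rw [e1] at hP3
  calc volume B ≤ volume F := measure_mono hBF
    _ ≤ 2 * (16 * (κ + 1) ^ 2 * ((∑ β ∈ S, (3 ^ β.1) ^ n : ℕ) : ℝ≥0∞)) *
        (ENNReal.ofReal ((s * q) ^ n) * volume (cube n)) := hv.trans (by gcongr)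
    _ = 32 * (κ + 1) ^ 2 * (((∑ β ∈ S, (3 ^ β.1) ^ n : ℕ) : ℝ≥0∞) *
        (ENNReal.ofReal ((s * q) ^ n) * volume (cube n))) := by ring
    _ ≤ 32 * (κ + 1) ^ 2 * (ENNReal.ofReal ((q ^ 2) ^ n) * tot (cube n) δ P) := by gcongr
    _ = _ := by ring

theorem cube_sel (hn : 0 < n) (E : Set (V n)) (hE : Bornology.IsBounded E) (δ : V n → ℝ)
    (hδ : ∀ x ∈ E, 0 < δ x) :
    Sel (cube n) δ (800 * n * (Nat.log 2 (Nat.log 2 n) + 1) ^ 2) E := by
  set κ := Nat.log 2 (Nat.log 2 n) with hκ
  set A := 2 ^ (κ + 1) with hA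
  have hA0 : 0 < A := by positivity
  set L := 2 * n with hL
  have hL0 : 0 < L := by omega
  set q : ℝ := (3 : ℝ) ^ ((L : ℝ)⁻¹) with hq
  have hq1 : 1 < q := Real.one_lt_rpow (by norm_num) (by positivity)
  have hq0 : 0 < q := by linarith
  have hq3 : q ^ L = 3 := Real.rpow_inv_natCast_pow (by norm_num) hL0.ne'
  have key := (good_cube n).engine q hq1 (2 * L) (by omega) (L * A)
    (fun j => j % L + L * (j / L / A % 2)) (fun j => j / L / A / 2)
    (by
      intro j
      have := Nat.mod_lt j hL0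
      rcases Nat.mod_two_eq_zero_or_one (j / L / A) with h | h <;> rw [h] <;> omega)
    (by
      intro j j' h1 h2
      have e1 := Nat.mod_lt j hL0
      have e2 := Nat.mod_lt j' hL0
      have e3 : j % L = j' % L ∧ j / L / A % 2 = j' / L / A % 2 := by
        rcases Nat.mod_two_eq_zero_or_one (j / L / A) with h | h <;>
        rcases Nat.mod_two_eq_zero_or_one (j' / L / A) with h' | h' <;>
        rw [h, h'] at h1 ⊢ <;> omega
      have e4 : j / L / A + 2 ≤ j' / L / A := by omega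
      have e5 := Nat.div_add_mod (j / L) A
      have e6 := Nat.div_add_mod (j' / L) A
      have e7 := Nat.mod_lt (j / L) hA0
      have e8 : A * (j / L / A + 2) ≤ A * (j' / L / A) := Nat.mul_le_mul_left _ e4
      have e9 : j / L + A + 1 ≤ j' / L := by
        rw [mul_add] at e8; omega
      have e10 := Nat.div_add_mod j L
      have e11 := Nat.div_add_mod j' L
      have e12 : L * (j / L + A + 1) ≤ L * (j' / L) := Nat.mul_le_mul_left _ e9
      rw [mul_add, mul_add] at e12
      omega)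
    (32 * (κ + 1) ^ 2 * ENNReal.ofReal ((q ^ 2) ^ n))
    (by
      intro M hM r g δ B hB hj
      refine group_select q (M / (q ^ (r % L) * 3 ^ (A * (2 * g + r / L) + A - 1))) hq1
        (by positivity) κ A le_rfl δ B hB fun x hx => ?_
      obtain ⟨j, h1, h2, h3, h4⟩ := hj x hx
      have e1 := Nat.mod_lt j hL0
      have e2 : r % L = j % L := by rw [← h1, Nat.add_mul_mod_self_left, Nat.mod_mod]
      have e3 : r / L = j / L / A % 2 := by
        rw [← h1, Nat.add_mul_div_left _ _ hL0, Nat.div_eq_of_lt e1, zero_add]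
      have e4 : 2 * g + r / L = j / L / A := by omega
      have e5 := Nat.div_add_mod (j / L) A
      have e7 := Nat.mod_lt (j / L) hA0
      have e6 : M / (q ^ (r % L) * 3 ^ (A * (2 * g + r / L) + A - 1)) * 3 ^ (A - 1 - j / L % A) =
          M / q ^ j := by
        have e8 : q ^ j = q ^ (j % L) * 3 ^ (j / L) := by
          rw [← hq3, ← pow_mul, ← pow_add, Nat.mod_add_div]
        rw [e2, e4, e8, show A * (j / L / A) + A - 1 = j / L + (A - 1 - j / L % A) by omega,
          pow_add]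
        field_simp
      refine ⟨A - 1 - j / L % A, by omega, ?_, ?_⟩
      · rw [e6, div_div, ← pow_succ]; exact h3
      · rw [e6]; exact h4) E hE δ hδ
  refine key.mono_const ?_
  have e1 : (q ^ 2) ^ n = 3 := by rw [← pow_mul, ← hL, hq3]
  have e2 : (1 + (q ^ (L * A))⁻¹) ^ n ≤ 3 := by
    refine le_trans ?_ (pow_self_le_three n)
    have h1 : n < 2 ^ (Nat.log 2 n + 1) := Nat.lt_pow_succ_log_self (by norm_num) n
    have h2 : Nat.log 2 n < A := Nat.lt_pow_succ_log_self (by norm_num) _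
    have h3 : n ≤ 3 ^ A :=
      h1.le.trans ((Nat.pow_le_pow_right (by norm_num) h2).trans (Nat.pow_le_pow_left (by norm_num) A))
    have h4 : (n : ℝ) ≤ q ^ (L * A) := by
      rw [pow_mul, hq3]; exact_mod_cast h3
    have : (0 : ℝ) < n := by exact_mod_cast hn
    gcongr
  have e3 : ENNReal.ofReal ((1 + (q ^ (L * A))⁻¹) ^ n) ≤ 3 :=
    (ENNReal.ofReal_le_ofReal e2).trans (by simp)
  rw [e1]
  calc _ ≤ 2 * ((2 * L : ℕ) : ℝ≥0∞) * (32 * (κ + 1) ^ 2 * 3 + 3) := by
        gcongr; simp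
    _ ≤ _ := by
        have : 2 * (2 * L) * (32 * (κ + 1) ^ 2 * 3 + 3) ≤ 800 * n * (κ + 1) ^ 2 := by
          have : 1 ≤ (κ + 1) ^ 2 := Nat.one_le_pow _ _ (Nat.succ_pos κ)
          rw [hL]; nlinarith
        exact_mod_cast this

theorem cube_lower (hn : 0 < n) :
    (800 * n * (Nat.log 2 (Nat.log 2 n) + 1) ^ 2 : ℝ≥0∞)⁻¹ ≤ covConst (cube n) :=
  inv_le_covConst _ (by finiteness) (cube_sel hn)

end Pool.Agent.MP_9210c2_an
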