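import Mathlib

/-!
Carleson's covering constant `c(K)` and the translative packing density of a body `K`.
-/

namespace Pool.Agent.MP_9210c2_an

open MeasureTheory
open scoped ENNReal

/-- The copy `x + δ K` of `K`. -/
def body {n : ℕ} (K : Set (EuclideanSpace ℝ (Fin n))) (x : EuclideanSpace ℝ (Fin n)) (δ : ℝ) :
    Set (EuclideanSpace ℝ (Fin n)) :=
  (fun y => x + δ • y) '' K

/-- `c` is admissible for `K`: for every compact `E` and all positive radii `δ x` (`x ∈ E`) there
is a finite or countable set `S` of points of `E` whose copies `x + δ x K` are pairwise disjoint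
and have total measure at least `c |E|`. -/
def Admissible {n : ℕ} (K : Set (EuclideanSpace ℝ (Fin n))) (c : ℝ≥0∞) : Prop :=
  ∀ E : Set (EuclideanSpace ℝ (Fin n)), IsCompact E →
    ∀ δ : EuclideanSpace ℝ (Fin n) → ℝ, (∀ x ∈ E, 0 < δ x) →
      ∃ S : Set (EuclideanSpace ℝ (Fin n)), S.Countable ∧ S ⊆ E ∧
        S.PairwiseDisjoint (fun x => body K x (δ x)) ∧
        c * volume E ≤ ∑' x : S, volume (body K x (δ x))

/-- The covering constant `c(K)`: the supremum of the admissible constants. -/
noncomputable def covConst {n : ℕ} (K : Set (EuclideanSpace ℝ (Fin n))) : ℝ≥0∞ :=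
  sSup {c | Admissible K c}

/-- The open cube `(-1,1)^n`. -/
def cube (n : ℕ) : Set (EuclideanSpace ℝ (Fin n)) := {x | ∀ i, |x i| < 1}

/-- The largest total measure of pairwise disjoint translates `x + K` with `x` in the closed
Euclidean ball of radius `R` around the origin, divided by the measure of that ball. -/
noncomputable def packRatio {n : ℕ} (K : Set (EuclideanSpace ℝ (Fin n))) (R : ℝ) : ℝ≥0∞ :=
  ⨆ (P : Finset (EuclideanSpace ℝ (Fin n)))
    (_ : (P : Set (EuclideanSpace ℝ (Fin n))) ⊆ Metric.closedBall 0 R)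
    (_ : (P : Set (EuclideanSpace ℝ (Fin n))).PairwiseDisjoint (fun x => body K x 1)),
    (P.card : ℝ≥0∞) * volume K / volume (Metric.closedBall (0 : EuclideanSpace ℝ (Fin n)) R)

/-- The translative packing density of `K`. -/
noncomputable def packDensity {n : ℕ} (K : Set (EuclideanSpace ℝ (Fin n))) : ℝ≥0∞ :=
  Filter.limsup (packRatio K) Filter.atTop

end Pool.Agent.MP_9210c2_an
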