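import Pool.Agent.MP_9210c2_an.Scalar

namespace Pool.Agent.MP_9210c2_an

open Finset
open scoped RealInnerProductSpace ComplexConjugate

/-- half of `3 ^ r - 1` -/
def hh : ℕ → ℕ
  | 0 => 0
  | r + 1 => 3 * hh r + 1

lemma two_mul_hh (r : ℕ) : 2 * hh r + 1 = 3 ^ r := by
  induction r with
  | zero => rfl
  | succ r ih => rw [hh, pow_succ, ← ih]; ring

variable {N : ℕ} [NeZero N] {n : ℕ}

noncomputable def dk (t : ZMod N) : ℝ := (1 + 2 * (ZMod.stdAddChar t).re) / 3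

lemma dk_le (t : ZMod N) : dk t ≤ 1 := by
  have := (Complex.re_le_norm (ZMod.stdAddChar t)).trans (AddChar.norm_apply _ t).le
  rw [dk]; linarith

lemma le_dk (t : ZMod N) : -1 / 3 ≤ dk t := by
  have := (Complex.abs_re_le_norm (ZMod.stdAddChar t)).trans (AddChar.norm_apply _ t).le
  have := (abs_le.1 this).1
  rw [dk]; linarith

lemma dirichlet (t : ZMod N) (r : ℕ) :
    ∑ m ∈ range (3 ^ r), ZMod.stdAddChar (t * ((m : ZMod N) - (hh r : ZMod N))) =
      3 ^ r * ∏ i ∈ range r, (dk (t * 3 ^ i) : ℂ) := by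
  induction r with
  | zero => simp [hh]
  | succ r ih =>
    have e3 : (3 : ZMod N) ^ r = 2 * (hh r : ZMod N) + 1 := by
      have := congrArg (Nat.cast : ℕ → ZMod N) (two_mul_hh r).symm
      push_cast at this
      exact this
    rw [show 3 ^ (r + 1) = 3 ^ r + 3 ^ r + 3 ^ r by ring, sum_range_add, sum_range_add,
      prod_range_succ]
    have h1 : ∀ m : ℕ, t * ((m : ZMod N) - (hh (r + 1) : ZMod N)) =
        t * ((m : ZMod N) - (hh r : ZMod N)) + -(t * 3 ^ r) := by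
      intro m; rw [e3, hh]; push_cast; ring
    have h2 : ∀ m : ℕ, t * (((3 ^ r + m : ℕ) : ZMod N) - (hh (r + 1) : ZMod N)) =
        t * ((m : ZMod N) - (hh r : ZMod N)) := by
      intro m; rw [hh]; push_cast; rw [e3]; ring
    have h3 : ∀ m : ℕ, t * (((3 ^ r + 3 ^ r + m : ℕ) : ZMod N) - (hh (r + 1) : ZMod N)) =
        t * ((m : ZMod N) - (hh r : ZMod N)) + t * 3 ^ r := by
      intro m; rw [hh]; push_cast; rw [e3]; ring
    simp only [h2, h3]
    simp only [h1, AddChar.map_add_eq_mul, ← sum_mul, ih, AddChar.map_neg_eq_conj]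
    have h4 : (dk (t * 3 ^ r) : ℂ) =
        (1 + (ZMod.stdAddChar (t * 3 ^ r) + conj (ZMod.stdAddChar (t * 3 ^ r)))) / 3 := by
      rw [Complex.add_conj, dk]; push_cast; ring
    rw [h4]; ring

noncomputable def chi (ω : Fin n → ZMod N) (x : Fin n → ℤ) : ℂ :=
  ∏ l, ZMod.stdAddChar (ω l * (x l : ZMod N))

lemma chi_add (ω : Fin n → ZMod N) (x y : Fin n → ℤ) : chi ω (x + y) = chi ω x * chi ω y := by
  simp [chi, mul_add, AddChar.map_add_eq_mul, prod_mul_distrib]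

lemma chi_neg (ω : Fin n → ZMod N) (x : Fin n → ℤ) : chi ω (-x) = conj (chi ω x) := by
  simp [chi, AddChar.map_neg_eq_conj]

lemma sum_chi (x : Fin n → ℤ) : ∑ ω : Fin n → ZMod N, chi ω x =
    if ∀ l, (x l : ZMod N) = 0 then (N : ℂ) ^ n else 0 := by
  simp only [chi]
  rw [← Fintype.piFinset_univ, ← prod_univ_sum (fun _ => (univ : Finset (ZMod N)))
    (fun l t => ZMod.stdAddChar (t * (x l : ZMod N)))]
  simp only [AddChar.sum_mulShift _ (ZMod.isPrimitive_stdAddChar N), ZMod.card]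
  split_ifs with h
  · simp [h]
  · push Not at h
    obtain ⟨l, hl⟩ := h
    exact prod_eq_zero (mem_univ l) (by simp [hl])

noncomputable def mu (ω : Fin n → ZMod N) : ℕ → ℝ
  | 0 => 0
  | j + 1 => ∏ l, dk (ω l * 3 ^ j)

lemma prod_mem {ι : Type} (s : Finset ι) (f : ι → ℝ) (h1 : ∀ i, f i ≤ 1) (h2 : ∀ i, -1 / 3 ≤ f i) :
    ∏ i ∈ s, f i ≤ 1 ∧ -1 / 3 ≤ ∏ i ∈ s, f i := by
  classical
  induction s using Finset.induction_on with
  | empty => norm_num
  | insert a s ha ih =>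
    rw [prod_insert ha]
    have := h1 a
    have := h2 a
    obtain ⟨h3, h4⟩ := ih
    constructor <;> nlinarith

lemma mu_le (ω : Fin n → ZMod N) (j : ℕ) : mu ω j ≤ 1 := by
  cases j with
  | zero => simp [mu]
  | succ j => exact (prod_mem _ _ (fun _ => dk_le _) fun _ => le_dk _).1

lemma le_mu (ω : Fin n → ZMod N) (j : ℕ) : -1 / 3 ≤ mu ω j := by
  cases j with
  | zero => norm_num [mu]
  | succ j => exact (prod_mem _ _ (fun _ => dk_le _) fun _ => le_dk _).2

/-- the offset of a level `a` centre inside a cell of level `a + r` -/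
def off (a r : ℕ) (m : Fin n → ℕ) : Fin n → ℤ := fun l => 3 ^ a * ((m l : ℤ) - hh r)

lemma mm_mu (ω : Fin n → ZMod N) (a r : ℕ) :
    ∑ m ∈ Fintype.piFinset fun _ : Fin n => range (3 ^ r), chi ω (off a r m) =
      (3 ^ r) ^ n * (mm (mu ω) a (a + r) : ℂ) := by
  have h1 : mm (mu ω) a (a + r) = ∏ i ∈ range r, ∏ l, dk (ω l * 3 ^ a * 3 ^ i) := by
    induction r with
    | zero => simp [mm_self]
    | succ r ih =>
      rw [← add_assoc, mm_succ _ (Nat.le_add_right a r), ih, prod_range_succ, mu, mul_comm]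
      simp only [pow_add, mul_assoc]
  simp only [chi, off]
  rw [← prod_univ_sum (fun _ => range (3 ^ r))
    (fun l (m : ℕ) => ZMod.stdAddChar (ω l * ((3 ^ a * ((m : ℤ) - hh r) : ℤ) : ZMod N)))]
  rw [h1, prod_comm]
  push_cast
  simp only [← mul_assoc, dirichlet, prod_mul_distrib, prod_const, card_univ, Fintype.card_fin]

noncomputable def zz (G : Finset (Fin n → ℤ)) (ω : Fin n → ZMod N) : ℂ := ∑ k ∈ G, chi ω k

lemma inner_zz (G G' : Finset (Fin n → ℤ)) (ω : Fin n → ZMod N) :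
    ⟪zz G ω, zz G' ω⟫ = (∑ k ∈ G, ∑ k' ∈ G', chi ω (k' - k)).re := by
  rw [Complex.inner, zz, zz, map_sum, mul_sum]
  congr 1
  refine sum_congr rfl fun k _ => ?_
  rw [sum_mul]
  refine sum_congr rfl fun k' _ => ?_
  rw [sub_eq_add_neg, chi_add, chi_neg]

lemma sum_inner_zz (G G' : Finset (Fin n → ℤ))
    (hinj : ∀ k ∈ G, ∀ k' ∈ G', (∀ l, ((k' - k) l : ZMod N) = 0) → k = k') :
    ∑ ω : Fin n → ZMod N, ⟪zz G ω, zz G' ω⟫ = (N : ℝ) ^ n * (G ∩ G').card := by
  simp only [inner_zz]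
  rw [← Complex.re_sum, sum_comm]
  simp only [sum_comm (s := univ) (t := G'), sum_chi]
  have : ∑ k ∈ G, ∑ k' ∈ G', (if ∀ l, ((k' - k) l : ZMod N) = 0 then (N : ℂ) ^ n else 0) =
      ∑ k ∈ G, if k ∈ G' then (N : ℂ) ^ n else 0 := by
    refine sum_congr rfl fun k hk => ?_
    rw [← sum_ite_eq G' k fun _ => (N : ℂ) ^ n]
    refine sum_congr rfl fun k' hk' => ?_
    refine if_congr ⟨hinj k hk k' hk', ?_⟩ rfl rfl
    rintro rfl l; simp
  rw [this, sum_ite_mem, sum_const, nsmul_eq_mul]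
  norm_cast
  ring

/-- number of nested pairs -/
def pairs (G G' : Finset (Fin n → ℤ)) (a r : ℕ) : ℕ :=
  ∑ k ∈ G, ∑ k' ∈ G', ∑ m ∈ Fintype.piFinset fun _ : Fin n => range (3 ^ r),
    if k' - k + off a r m = 0 then 1 else 0

lemma pairs_le (G G' : Finset (Fin n → ℤ)) (a r : ℕ) :
    (N : ℝ) ^ n * pairs G G' a r ≤
      (3 ^ r) ^ n * ∑ ω : Fin n → ZMod N, mm (mu ω) a (a + r) * ⟪zz G ω, zz G' ω⟫ := by
  have h1 : ∀ ω : Fin n → ZMod N, (3 ^ r) ^ n * (mm (mu ω) a (a + r) * ⟪zz G ω, zz G' ω⟫) =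
      (∑ k ∈ G, ∑ k' ∈ G', ∑ m ∈ Fintype.piFinset fun _ : Fin n => range (3 ^ r),
        chi ω (k' - k + off a r m)).re := by
    intro ω
    simp only [chi_add, ← mul_sum, ← sum_mul, mm_mu, inner_zz]
    have : ((3 : ℂ) ^ r) ^ n * (mm (mu ω) a (a + r) : ℂ) =
        (((3 : ℝ) ^ r) ^ n * mm (mu ω) a (a + r) : ℝ) := by push_cast; rfl
    rw [this, Complex.re_mul_ofReal]; ring
  rw [mul_sum, sum_congr rfl fun ω _ => h1 ω, ← Complex.re_sum, sum_comm]
  simp only [sum_comm (s := univ) (t := G'),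
    sum_comm (s := univ) (t := Fintype.piFinset fun _ : Fin n => range (3 ^ r)), sum_chi,
    Complex.re_sum, pairs]
  push_cast
  simp only [mul_sum]
  refine sum_le_sum fun k _ => sum_le_sum fun k' _ => sum_le_sum fun m _ => ?_
  by_cases h : k' - k + off a r m = 0
  · rw [if_pos h, h]
    simp only [Pi.zero_apply, Int.cast_zero, implies_true, if_true, mul_one]
    norm_cast
  · rw [if_neg h, mul_zero]
    split_ifs
    · norm_cast; positivity
    · simp

omit [NeZero N] in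
theorem second_moment (G : ℕ → Finset (Fin n → ℤ)) (U : Finset (Fin n → ℤ)) (hU : ∀ i, G i ⊆ U)
    (hd : ∀ i j, i ≠ j → Disjoint (G i) (G j)) (k A : ℕ) (hA : A ≤ 2 ^ (k + 1)) :
    ∑ b ∈ range A, (((G b).card : ℝ) +
      2 * ∑ a ∈ range b, (pairs (G a) (G b) a (b - a) : ℝ) / (3 ^ (b - a)) ^ n) ≤
      16 * (k + 1) ^ 2 * U.card := by
  classical
  obtain ⟨B, hB⟩ : ∃ B : ℕ, ∀ x ∈ U, ∀ l, |x l| ≤ B := by
    refine ⟨U.sup fun x => univ.sup fun l => (x l).natAbs, fun x hx l => ?_⟩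
    have h1 : (x l).natAbs ≤ univ.sup fun l => (x l).natAbs :=
      le_sup (f := fun l => (x l).natAbs) (mem_univ l)
    have h2 := le_sup (f := fun x : Fin n → ℤ => univ.sup fun l => (x l).natAbs) hx
    rw [Int.abs_eq_natAbs]
    exact_mod_cast h1.trans h2
  have : NeZero (2 * B + 1) := ⟨by omega⟩
  have hinj : ∀ k ∈ U, ∀ k' ∈ U, (∀ l, ((k' - k) l : ZMod (2 * B + 1)) = 0) → k = k' := by
    intro k hk k' hk' h
    funext l
    have h1 := (ZMod.intCast_zmod_eq_zero_iff_dvd _ _).1 (h l)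
    have h2 := abs_le.1 (hB k hk l)
    have h3 := abs_le.1 (hB k' hk' l)
    have := Int.eq_zero_of_abs_lt_dvd h1 (by
      rw [Pi.sub_apply, abs_lt]; push_cast; omega)
    rw [Pi.sub_apply] at this
    omega
  have hin : ∀ i j, ∑ ω : Fin n → ZMod (2 * B + 1), ⟪zz (G i) ω, zz (G j) ω⟫ =
      ((2 * B + 1 : ℕ) : ℝ) ^ n * (G i ∩ G j).card := fun i j =>
    sum_inner_zz _ _ fun k hk k' hk' => hinj k (hU i hk) k' (hU j hk')
  have hN : (0 : ℝ) < ((2 * B + 1 : ℕ) : ℝ) ^ n := by positivity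
  have hnorm : ∀ i, ∑ ω : Fin n → ZMod (2 * B + 1), ‖zz (G i) ω‖ ^ 2 =
      ((2 * B + 1 : ℕ) : ℝ) ^ n * (G i).card := by
    intro i
    simp only [← real_inner_self_eq_norm_sq, hin, inter_self]
  have key := sum_Bq_le (F := ℂ) (Ω := Fin n → ZMod (2 * B + 1)) mu (fun _ => rfl) mu_le le_mu
    (fun i ω => zz (G i) ω)
    (fun i j hij => by rw [hin, disjoint_iff_inter_eq_empty.1 (hd i j hij)]; simp)
    (((2 * B + 1 : ℕ) : ℝ) ^ n * U.card) (by
      intro M
      simp only [hnorm, ← mul_sum]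
      gcongr
      have h1 := card_biUnion (s := range M) (t := G) fun i _ j _ hij => hd i j hij
      have h2 : ((range M).biUnion G).card ≤ U.card :=
        card_le_card (biUnion_subset.2 fun i _ => hU i)
      rw [h1] at h2
      exact_mod_cast h2) k A hA
  refine le_of_mul_le_mul_left ?_ hN
  refine le_trans ?_ (key.trans (le_of_eq (by ring)))
  simp only [Bq]
  rw [sum_comm, mul_sum]
  refine sum_le_sum fun b _ => ?_
  rw [sum_add_distrib, hnorm, mul_add, ← mul_sum, sum_comm, mul_left_comm, mul_sum]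
  gcongr with a ha
  have := pairs_le (N := 2 * B + 1) (G a) (G b) a (b - a)
  rw [Nat.add_sub_cancel' (mem_range.1 ha).le] at this
  rw [← mul_div_assoc, div_le_iff₀ (by positivity), mul_comm _ ((3 ^ (b - a)) ^ n : ℝ)]
  exact this

end Pool.Agent.MP_9210c2_an
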