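import Pool.Agent.MP_9210c2_an.Basic

namespace Pool.Agent.MP_9210c2_an

open MeasureTheory Set Filter Topology
open scoped ENNReal Pointwise

variable {n : ℕ} {K : Set (V n)}

lemma vol_closedBall (x : V n) {R : ℝ} (hR : 0 ≤ R) :
    volume (Metric.closedBall x R) =
      ENNReal.ofReal (R ^ n) * volume (Metric.closedBall (0 : V n) 1) := by
  rw [Measure.addHaar_closedBall' _ _ hR]; simp

lemma vol_closedBall_ne_zero (x : V n) {R : ℝ} (hR : 0 < R) :
    volume (Metric.closedBall x R) ≠ 0 := (Metric.measure_closedBall_pos _ _ hR).ne'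

lemma vol_closedBall_ne_top (x : V n) (R : ℝ) :
    volume (Metric.closedBall x R) ≠ ∞ := measure_closedBall_lt_top.ne

lemma vol_closedBall_add {R D : ℝ} (hR : 0 < R) (hD : 0 ≤ D) :
    volume (Metric.closedBall (0 : V n) (R + D)) =
      ENNReal.ofReal ((1 + D / R) ^ n) * volume (Metric.closedBall (0 : V n) R) := by
  rw [vol_closedBall _ (by positivity), vol_closedBall _ hR.le, ← mul_assoc,
    ← ENNReal.ofReal_mul (by positivity), ← mul_pow]
  congr 3
  field_simp

lemma tendsto_ratio (n : ℕ) (D : ℝ) :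
    Tendsto (fun R : ℝ => ENNReal.ofReal ((1 + D / R) ^ n)) atTop (𝓝 1) := by
  have h1 : Tendsto (fun R : ℝ => (1 + D / R) ^ n) atTop (𝓝 ((1 + 0) ^ n)) :=
    (tendsto_const_nhds.add (tendsto_const_nhds.div_atTop tendsto_id)).pow n
  have := ENNReal.tendsto_ofReal h1
  simpa using this

lemma packDensity_le (a : ℝ≥0∞) (ha : a ≠ ∞) (D : ℝ) (hD : 0 ≤ D)
    (h : ∀ R : ℝ, 0 < R → ∀ P : Finset (V n), (P : Set (V n)) ⊆ Metric.closedBall 0 R →
      (P : Set (V n)).PairwiseDisjoint (fun x => body K x 1) →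
      (P.card : ℝ≥0∞) * volume K ≤ a * volume (Metric.closedBall (0 : V n) (R + D))) :
    packDensity K ≤ a := by
  have h1 : Tendsto (fun R : ℝ => a * ENNReal.ofReal ((1 + D / R) ^ n)) atTop (𝓝 (a * 1)) :=
    ENNReal.Tendsto.const_mul (tendsto_ratio n D) (Or.inr ha)
  rw [mul_one] at h1
  rw [← h1.limsup_eq, packDensity]
  refine Filter.limsup_le_limsup ?_
  filter_upwards [eventually_gt_atTop 0] with R hR
  refine iSup_le fun P => iSup_le fun hP => iSup_le fun hd => ?_
  rw [ENNReal.div_le_iff (vol_closedBall_ne_zero _ hR) (vol_closedBall_ne_top _ _), mul_assoc,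
    ← vol_closedBall_add hR hD]
  exact h R hR P hP hd

lemma Good.packDensity_le_one (h : Good K) : packDensity K ≤ 1 := by
  obtain ⟨D, hD⟩ := h.bdd.subset_closedBall 0
  refine packDensity_le 1 (by simp) |D| (abs_nonneg D) fun R hR P hP hd => ?_
  have h1 : volume (⋃ x ∈ P, body K x 1) = ∑ x ∈ P, volume (body K x 1) :=
    measure_biUnion_finset hd fun x _ => (h.isOpen_body x one_pos).measurableSet
  have h2 : ∑ x ∈ P, volume (body K x 1) = (P.card : ℝ≥0∞) * volume K := by
    simp [volume_body]
  rw [one_mul, ← h2, ← h1]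
  refine measure_mono (Set.iUnion₂_subset fun x hx => ?_)
  rintro _ ⟨y, hy, rfl⟩
  have h3 : ‖x‖ ≤ R := by simpa using hP hx
  have h4 : ‖y‖ ≤ D := by simpa using hD hy
  have := norm_add_le x y
  have := le_abs_self D
  simp only [one_smul, mem_closedBall_zero_iff]
  linarith

lemma covConst_le_packDensity : covConst K ≤ packDensity K := by
  classical
  refine sSup_le fun c hc => ?_
  refine Filter.le_limsup_of_frequently_le (Eventually.frequently ?_)
  filter_upwards [eventually_gt_atTop 0] with R hR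
  obtain ⟨S, -, hS, hd, hv⟩ := hc (Metric.closedBall 0 R) (isCompact_closedBall _ _)
    (fun _ => 1) (fun _ _ => one_pos)
  rw [← ENNReal.le_div_iff_mul_le (Or.inl (vol_closedBall_ne_zero _ hR))
    (Or.inl (vol_closedBall_ne_top _ _))] at hv
  refine hv.trans ?_
  rw [ENNReal.tsum_eq_iSup_sum, ENNReal.iSup_div]
  refine iSup_le fun t => ?_
  have hsub : ((t.image Subtype.val : Finset (V n)) : Set (V n)) ⊆ S := by
    intro x hx
    rw [Finset.coe_image] at hx
    obtain ⟨y, -, rfl⟩ := hx
    exact y.2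
  refine le_iSup_of_le (t.image Subtype.val) (le_iSup_of_le (hsub.trans hS)
    (le_iSup_of_le (hd.subset hsub) (le_of_eq ?_)))
  rw [Finset.card_image_of_injective _ Subtype.val_injective]
  simp [volume_body]

lemma Good.single_scale (h : Good K) (hΔ : packDensity K ≠ 0) (A : Set (V n))
    (hA : MeasurableSet A) (hb : Bornology.IsBounded A) (r : ℝ) (hr : 0 < r) :
    ∃ P : Finset (V n), (P : Set (V n)) ⊆ A ∧
      (P : Set (V n)).PairwiseDisjoint (fun x => body K x r) ∧
      packDensity K * volume A ≤ 2 * ∑ x ∈ P, volume (body K x r) := by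
  classical
  have hΔ1 : packDensity K ≠ ∞ := ne_top_of_le_ne_top (by simp) h.packDensity_le_one
  obtain ⟨d, hd1, hd2⟩ := exists_between (ENNReal.half_lt_self hΔ hΔ1)
  obtain ⟨D, hD⟩ := hb.subset_closedBall 0
  have hfreq : ∃ᶠ R in atTop, d < packRatio K R :=
    Filter.frequently_lt_of_lt_limsup (by isBoundedDefault) hd2
  have h1 : Tendsto (fun R : ℝ => packDensity K / 2 * ENNReal.ofReal ((1 + (|D| / r) / R) ^ n))
      atTop (𝓝 (packDensity K / 2 * 1)) :=
    ENNReal.Tendsto.const_mul (tendsto_ratio n _)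
      (Or.inr (ENNReal.div_ne_top hΔ1 (by simp)))
  rw [mul_one] at h1
  obtain ⟨R, hR1, hR2, hR⟩ := (hfreq.and_eventually
    ((h1.eventually (gt_mem_nhds hd1)).and (eventually_gt_atTop 0))).exists
  simp only [packRatio, lt_iSup_iff] at hR1
  obtain ⟨P, hP, hdis, hlt⟩ := hR1
  obtain ⟨t, ht⟩ := exists_translate P (fun p => r • p) A (Metric.closedBall 0 (r * (R + |D| / r)))
    hA measurableSet_closedBall (vol_closedBall_ne_zero _ (by positivity))
    (vol_closedBall_ne_top _ _) (by
      intro p hp t htp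
      have h3 : ‖p‖ ≤ R := by simpa using hP hp
      have h4 : ‖t + r • p‖ ≤ D := by simpa using hD htp
      have h5 : ‖t‖ ≤ ‖t + r • p‖ + ‖r • p‖ := by
        simpa using norm_sub_le (t + r • p) (r • p)
      rw [norm_smul, Real.norm_of_nonneg hr.le] at h5
      have := le_abs_self D
      have h6 : r * (R + |D| / r) = r * R + |D| := by field_simp
      have := mul_le_mul_of_nonneg_left h3 hr.le
      rw [mem_closedBall_zero_iff, h6]
      linarith)
  have hinj : Function.Injective fun p : V n => t + r • p := by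
    intro a b hab
    have : r • a = r • b := add_left_cancel hab
    exact smul_right_injective _ hr.ne' this
  refine ⟨(P.filter fun p => t + r • p ∈ A).image fun p => t + r • p, ?_, ?_, ?_⟩
  · intro x hx
    rw [Finset.coe_image] at hx
    obtain ⟨p, hp, rfl⟩ := hx
    exact (Finset.mem_filter.1 hp).2
  · rw [Finset.coe_image]
    rintro _ ⟨p, hp, rfl⟩ _ ⟨p', hp', rfl⟩ hne
    have hpp : p ≠ p' := fun e => hne (by rw [e])
    have := hdis (Finset.mem_filter.1 hp).1 (Finset.mem_filter.1 hp').1 hpp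
    rw [Function.onFun, Set.disjoint_left] at this ⊢
    rintro _ ⟨y, hy, rfl⟩ ⟨y', hy', he⟩
    refine this ⟨y, hy, rfl⟩ ⟨y', hy', ?_⟩
    simp only [one_smul] at he ⊢
    have h2 : r • (p' + y') = r • (p + y) := by
      rw [smul_add, smul_add]
      rw [add_assoc, add_assoc] at he
      exact add_left_cancel he
    exact smul_right_injective _ hr.ne' h2
  · set N : ℝ≥0∞ := ((P.filter fun p => t + r • p ∈ A).card : ℝ≥0∞) with hN
    have hsum : ∑ x ∈ (P.filter fun p => t + r • p ∈ A).image (fun p => t + r • p),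
        volume (body K x r) = N * (ENNReal.ofReal (r ^ n) * volume K) := by
      rw [Finset.sum_congr rfl fun x _ => volume_body K x hr.le, Finset.sum_const,
        Finset.card_image_of_injective _ hinj, nsmul_eq_mul]
    rw [hsum]
    set B := volume (Metric.closedBall (0 : V n) R) with hB
    have hB0 : B ≠ 0 := vol_closedBall_ne_zero _ hR
    have hB1 : B ≠ ∞ := vol_closedBall_ne_top _ _
    set u := ENNReal.ofReal ((1 + (|D| / r) / R) ^ n) with hu
    have hu0 : u ≠ 0 := by
      rw [hu]; exact (ENNReal.ofReal_pos.2 (by positivity)).ne'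
    have hT : volume (Metric.closedBall (0 : V n) (r * (R + |D| / r))) =
        ENNReal.ofReal (r ^ n) * (u * B) := by
      rw [hu, hB, ← vol_closedBall_add hR (by positivity), vol_closedBall _ (by positivity),
        vol_closedBall _ (by positivity : 0 ≤ R + |D| / r), mul_pow,
        ENNReal.ofReal_mul (by positivity), mul_assoc]
    rw [hT] at ht
    have h7 : packDensity K / 2 * u * B ≤ P.card * volume K := by
      rw [← ENNReal.le_div_iff_mul_le (Or.inl hB0) (Or.inl hB1)]
      exact (hR2.trans hlt).le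
    have h8 : packDensity K / 2 * volume A * (u * B) ≤
        N * (ENNReal.ofReal (r ^ n) * volume K) * (u * B) := by
      calc packDensity K / 2 * volume A * (u * B) = packDensity K / 2 * u * B * volume A := by ring
        _ ≤ P.card * volume K * volume A := by gcongr
        _ = P.card * volume A * volume K := by ring
        _ ≤ N * (ENNReal.ofReal (r ^ n) * (u * B)) * volume K := by gcongr
        _ = _ := by ring
    have h9 := (ENNReal.mul_le_mul_iff_left (mul_ne_zero hu0 hB0)
      (ENNReal.mul_ne_top ENNReal.ofReal_ne_top hB1)).1 h8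
    calc packDensity K * volume A = 2 * (packDensity K / 2 * volume A) := by
          rw [← mul_assoc, ENNReal.mul_div_cancel (by simp) (by simp)]
      _ ≤ _ := by gcongr

lemma pow_self_le_three (n : ℕ) : (1 + (n : ℝ)⁻¹) ^ n ≤ 3 := by
  rcases Nat.eq_zero_or_pos n with rfl | hn
  · simp
  have h1 : (1 + (n : ℝ)⁻¹) ≤ Real.exp (n : ℝ)⁻¹ := by
    have := Real.add_one_le_exp (n : ℝ)⁻¹; linarith
  have h2 : (1 + (n : ℝ)⁻¹) ^ n ≤ Real.exp (n : ℝ)⁻¹ ^ n := by gcongr
  rw [← Real.exp_nat_mul, mul_inv_cancel₀ (by positivity)] at h2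
  have := Real.exp_one_lt_d9
  linarith

lemma two_le_pow_self {n : ℕ} (hn : 0 < n) : (2 : ℝ) ≤ (1 + (n : ℝ)⁻¹) ^ n := by
  have := one_add_mul_le_pow (a := (n : ℝ)⁻¹) (by
    have : (0 : ℝ) ≤ (n : ℝ)⁻¹ := by positivity
    linarith) n
  rw [mul_inv_cancel₀ (by positivity)] at this
  linarith

/-- the general lower bound with a free separation parameter -/
lemma Good.packDensity_le_mul (h : Good K) (hn : 0 < n) (k : ℕ) (b : ℝ≥0∞)
    (hb : ENNReal.ofReal ((1 + ((2 : ℝ) ^ k)⁻¹) ^ n) * packDensity K ≤ b) :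
    packDensity K ≤ 2 * ((n * k + 1 : ℕ) : ℝ≥0∞) * (18 + b) * covConst K := by
  by_cases hΔ : packDensity K = 0
  · simp [hΔ]
  have hΔ1 : packDensity K ≠ ∞ := ne_top_of_le_ne_top (by simp) h.packDensity_le_one
  set q : ℝ := 1 + (n : ℝ)⁻¹ with hq
  have hn' : (0 : ℝ) < (n : ℝ)⁻¹ := by positivity
  have hq1 : 1 < q := by linarith
  have hq0 : 0 < q := by linarith
  set L := n * k + 1 with hL
  have hL0 : 0 < L := Nat.succ_pos _
  have key := h.engine q hq1 L hL0 (n * k) (fun j => j % L) (fun j => j / L)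
    (fun j => Nat.mod_lt _ hL0)
    (by
      intro j j' h1 h2
      have e1 := Nat.div_add_mod j L
      have e2 := Nat.div_add_mod j' L
      have : L * (j / L + 1) ≤ L * (j' / L) := Nat.mul_le_mul_left _ h2
      have e3 : L * (j / L + 1) = L * (j / L) + L := by ring
      omega)
    (18 / packDensity K)
    (by
      intro M hM r g δ B hB hj
      have hj' : ∀ x ∈ B, M / q ^ (L * g + r + 1) < δ x ∧ δ x ≤ M / q ^ (L * g + r) := by
        intro x hx
        obtain ⟨j, h1, h2, h3⟩ := hj x hx
        have e1 := Nat.div_add_mod j L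
        rw [h1, h2] at e1
        rw [e1]; exact h3
      set s := M / q ^ (L * g + r) with hs
      have hs0 : 0 < s := by positivity
      obtain ⟨P, hP, hd, hv⟩ := h.single_scale hΔ (closure B) isClosed_closure.measurableSet
        hB.closure (s * q) (by positivity)
      obtain ⟨P', hP', hd', hv'⟩ := h.perturb P id (fun _ => s * q) δ B (q ^ 2) (by positivity)
        (fun _ _ => by positivity) hd (by
          intro c hc
          refine ⟨s * (q - 1), mul_pos hs0 (by linarith), closure_mono ?_ (hP hc)⟩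
          intro x hx
          obtain ⟨h1, h2⟩ := hj' x hx
          refine ⟨hx, ?_, by linarith⟩
          have : M / q ^ (L * g + r + 1) = s / q := by rw [hs, pow_succ, div_div]
          rw [this, div_lt_iff₀ hq0] at h1
          nlinarith)
      refine ⟨P', hP', hd', ?_⟩
      have h9 : ENNReal.ofReal ((q ^ 2) ^ n) ≤ 9 := by
        have : (q ^ 2) ^ n ≤ 9 := by
          rw [← pow_mul, mul_comm, pow_mul]
          have := pow_self_le_three n
          have h0 : 0 ≤ q ^ n := by positivity
          nlinarith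
        exact (ENNReal.ofReal_le_ofReal this).trans (by simp)
      have h10 : packDensity K * volume B ≤ 18 * tot K δ P' := by
        calc packDensity K * volume B ≤ packDensity K * volume (closure B) := by
              gcongr; exact subset_closure
          _ ≤ 2 * (9 * tot K δ P') := hv.trans (by gcongr; exact hv'.trans (by gcongr))
          _ = _ := by ring
      rw [div_eq_mul_inv, mul_right_comm, ← div_eq_mul_inv,
        ENNReal.le_div_iff_mul_le (Or.inl hΔ) (Or.inl hΔ1), mul_comm]
      exact h10)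
  set C := 2 * (L : ℝ≥0∞) * (18 / packDensity K + ENNReal.ofReal ((1 + (q ^ (n * k))⁻¹) ^ n))
    with hC
  have hC1 : C ≠ ∞ := by
    refine ENNReal.mul_ne_top (ENNReal.mul_ne_top (by simp) (by simp)) ?_
    exact ENNReal.add_ne_top.2 ⟨ENNReal.div_ne_top (by simp) hΔ, ENNReal.ofReal_ne_top⟩
  have hC0 : C ≠ 0 := by
    refine mul_ne_zero (mul_ne_zero (by simp) (by exact_mod_cast hL0.ne')) ?_
    intro h0
    rw [add_eq_zero] at h0
    have := h0.1
    simp [hΔ1] at this
  have h1 := inv_le_covConst C hC1 key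
  have h2 : ENNReal.ofReal ((1 + (q ^ (n * k))⁻¹) ^ n) ≤
      ENNReal.ofReal ((1 + ((2 : ℝ) ^ k)⁻¹) ^ n) := by
    apply ENNReal.ofReal_le_ofReal
    have : (2 : ℝ) ^ k ≤ q ^ (n * k) := by
      rw [pow_mul]
      exact pow_le_pow_left₀ (by norm_num) (two_le_pow_self hn) k
    gcongr
  have h3 : packDensity K * C ≤ 2 * (L : ℝ≥0∞) * (18 + b) := by
    rw [hC, mul_left_comm, mul_add, ENNReal.mul_div_cancel hΔ hΔ1]
    gcongr
    rw [mul_comm]
    exact le_trans (by gcongr) hb
  calc packDensity K = packDensity K * C * C⁻¹ := by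
        rw [mul_assoc, ENNReal.mul_inv_cancel hC0 hC1, mul_one]
    _ ≤ _ := by gcongr

lemma Good.general_lower (h : Good K) (hn : 0 < n) :
    packDensity K ≤ ENNReal.ofReal (210 * n * Real.log (n + 1)) * covConst K := by
  have hn' : (1 : ℝ) ≤ n := by exact_mod_cast hn
  have key := h.packDensity_le_mul hn (Nat.clog 2 n) 3 (by
    have h1 : (n : ℝ) ≤ 2 ^ Nat.clog 2 n := by exact_mod_cast Nat.le_pow_clog (by norm_num) n
    have h2 : (1 + ((2 : ℝ) ^ Nat.clog 2 n)⁻¹) ^ n ≤ 3 := by
      refine le_trans ?_ (pow_self_le_three n)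
      gcongr
    calc _ ≤ ENNReal.ofReal 3 * 1 := by
          gcongr
          exact h.packDensity_le_one
      _ = 3 := by simp)
  refine key.trans ?_
  gcongr
  have hl2 : (0.69 : ℝ) < Real.log 2 := by have := Real.log_two_gt_d9; linarith
  have hl : Real.log 2 ≤ Real.log (n + 1) := Real.log_le_log (by norm_num) (by linarith)
  have hk : (Nat.clog 2 n : ℝ) ≤ 3 * Real.log (n + 1) := by
    rcases Nat.lt_or_ge 1 n with h1 | h1
    · have h2 := Nat.pow_pred_clog_lt_self (b := 2) (by norm_num) h1
      have h3 := Nat.clog_pos (b := 2) (by norm_num) h1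
      obtain ⟨k, hk⟩ : ∃ k, Nat.clog 2 n = k + 1 := ⟨_, (Nat.succ_pred_eq_of_pos h3).symm⟩
      rw [hk] at h2 ⊢
      have h4 : ((2 : ℝ) ^ k) ≤ n + 1 := by
        have : (2 : ℝ) ^ k < n := by exact_mod_cast h2
        linarith
      have h5 := Real.log_le_log (by positivity) h4
      rw [Real.log_pow] at h5
      push_cast
      have : (0 : ℝ) ≤ k := by positivity
      nlinarith
    · have : n = 1 := by omega
      subst this
      simp only [Nat.clog_one_right, Nat.cast_zero]
      linarith
  have : 2 * ((n * Nat.clog 2 n + 1 : ℕ) : ℝ≥0∞) * (18 + 3) =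
      ENNReal.ofReal (2 * ((n * Nat.clog 2 n + 1 : ℕ) : ℝ) * 21) := by
    rw [ENNReal.ofReal_mul (by positivity), ENNReal.ofReal_mul (by positivity),
      ENNReal.ofReal_natCast]
    norm_num
  rw [this]
  apply ENNReal.ofReal_le_ofReal
  push_cast
  have h6 : (n : ℝ) * Nat.clog 2 n ≤ n * (3 * Real.log (n + 1)) := by gcongr
  nlinarith

end Pool.Agent.MP_9210c2_an
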