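import Mathlib

namespace Pool.Agent.MP_9210c2_an

open Finset
open scoped RealInnerProductSpace

variable {F : Type} [NormedAddCommGroup F] [InnerProductSpace ℝ F]

def mm (μ : ℕ → ℝ) (a c : ℕ) : ℝ := ∏ j ∈ Ioc a c, μ j

lemma mm_self (μ : ℕ → ℝ) (a : ℕ) : mm μ a a = 1 := by simp [mm]

lemma mm_succ (μ : ℕ → ℝ) {a c : ℕ} (h : a ≤ c) : mm μ a (c + 1) = μ (c + 1) * mm μ a c := by
  rw [mm, mm, prod_Ioc_succ_top h, mul_comm]

noncomputable def XX (μ : ℕ → ℝ) (z : ℕ → F) (c : ℕ) : F := ∑ a ∈ range (c + 1), mm μ a c • z a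

lemma XX_zero (μ : ℕ → ℝ) (z : ℕ → F) : XX μ z 0 = z 0 := by simp [XX, mm_self]

lemma XX_succ (μ : ℕ → ℝ) (z : ℕ → F) (c : ℕ) :
    XX μ z (c + 1) = μ (c + 1) • XX μ z c + z (c + 1) := by
  rw [XX, sum_range_succ, mm_self, one_smul, XX, smul_sum]
  congr 1
  refine sum_congr rfl fun a ha => ?_
  rw [mm_succ μ (Nat.lt_succ_iff.1 (mem_range.1 ha)), mul_smul]

noncomputable def Bq (μ : ℕ → ℝ) (z : ℕ → F) (A : ℕ) : ℝ :=
  ∑ b ∈ range A, (‖z b‖ ^ 2 + 2 * ∑ a ∈ range b, mm μ a b * ⟪z a, z b⟫)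

lemma Bq_eq (μ : ℕ → ℝ) (z : ℕ → F) (A : ℕ) :
    Bq μ z (A + 1) = ∑ e ∈ range A, (1 - μ (e + 1) ^ 2) * ‖XX μ z e‖ ^ 2 + ‖XX μ z A‖ ^ 2 := by
  induction A with
  | zero => simp [Bq, XX_zero]
  | succ A ih =>
    have : ∑ a ∈ range (A + 1), mm μ a (A + 1) * ⟪z a, z (A + 1)⟫ =
        μ (A + 1) * ⟪XX μ z A, z (A + 1)⟫ := by
      rw [XX, sum_inner, mul_sum]
      refine sum_congr rfl fun a ha => ?_
      rw [mm_succ μ (Nat.lt_succ_iff.1 (mem_range.1 ha)), real_inner_smul_left, mul_assoc]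
    rw [Bq, sum_range_succ, ← Bq, ih, this, sum_range_succ _ A, XX_succ, norm_add_sq_real,
      norm_smul, mul_pow, Real.norm_eq_abs, sq_abs, real_inner_smul_left]
    ring

lemma sum_weights (μ : ℕ → ℝ) (h0 : μ 0 = 0) (c : ℕ) :
    ∑ a ∈ range (c + 1), (1 - μ a) * mm μ a c = 1 := by
  induction c with
  | zero => simp [mm_self, h0]
  | succ c ih =>
    rw [sum_range_succ, mm_self]
    have : ∑ a ∈ range (c + 1), (1 - μ a) * mm μ a (c + 1) =
        μ (c + 1) * ∑ a ∈ range (c + 1), (1 - μ a) * mm μ a c := by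
      rw [mul_sum]
      refine sum_congr rfl fun a ha => ?_
      rw [mm_succ μ (Nat.lt_succ_iff.1 (mem_range.1 ha))]; ring
    rw [this, ih]; ring

lemma XX_eq (μ : ℕ → ℝ) (h0 : μ 0 = 0) (z : ℕ → F) (c : ℕ) :
    XX μ z c = ∑ a ∈ range (c + 1), ((1 - μ a) * mm μ a c) • ∑ e ∈ Ico a (c + 1), z e := by
  induction c with
  | zero => simp [XX_zero, mm_self, h0]
  | succ c ih =>
    rw [XX_succ, ih, sum_range_succ _ (c + 1), mm_self]
    have : ∑ a ∈ range (c + 1), ((1 - μ a) * mm μ a (c + 1)) • ∑ e ∈ Ico a (c + 1 + 1), z e =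
        μ (c + 1) • ∑ a ∈ range (c + 1), ((1 - μ a) * mm μ a c) • ∑ e ∈ Ico a (c + 1), z e +
          μ (c + 1) • (∑ a ∈ range (c + 1), (1 - μ a) * mm μ a c) • z (c + 1) := by
      rw [sum_smul, ← smul_add, ← sum_add_distrib, smul_sum]
      refine sum_congr rfl fun a ha => ?_
      rw [mm_succ μ (Nat.lt_succ_iff.1 (mem_range.1 ha)),
        sum_Ico_succ_top (mem_range.1 ha).le, ← smul_add, smul_smul]
      congr 1; ring
    rw [this, sum_weights μ h0, Nat.Ico_succ_singleton, sum_singleton]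
    module

lemma telescope (ν γ : ℕ → ℝ) (A : ℕ) :
    ∑ e ∈ range A, (1 - ν (e + 1)) * XX ν γ e + XX ν γ A = ∑ l ∈ range (A + 1), γ l := by
  induction A with
  | zero => simp [XX_zero]
  | succ A ih =>
    rw [sum_range_succ, sum_range_succ γ (A + 1), ← ih, XX_succ, smul_eq_mul]; ring

lemma abs_mm (μ : ℕ → ℝ) (a c : ℕ) : |mm μ a c| = mm (fun j => |μ j|) a c := by
  simp [mm, abs_prod]

lemma Bq_le (μ : ℕ → ℝ) (h0 : μ 0 = 0) (h1 : ∀ j, μ j ≤ 1) (h2 : ∀ j, -1 / 3 ≤ μ j)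
    (z : ℕ → F) (γ : ℕ → ℝ) (hγ : ∀ l, 0 ≤ γ l) (K : ℝ) (hK : 0 ≤ K) (A : ℕ)
    (hT : ∀ a c, a ≤ c → c ≤ A → ‖∑ e ∈ Ico a (c + 1), z e‖ ^ 2 ≤ K * ∑ l ∈ Ico a (c + 1), γ l) :
    Bq μ z (A + 1) ≤ 8 * K * ∑ l ∈ range (A + 1), γ l := by
  set ν : ℕ → ℝ := fun j => |μ j| with hν
  have hν0 : ν 0 = 0 := by simp [hν, h0]
  have hν1 : ∀ j, ν j ≤ 1 := fun j => abs_le.2 ⟨by linarith [h2 j], h1 j⟩
  have hν2 : ∀ j, 1 - μ j ≤ 2 * (1 - ν j) := by
    intro j
    simp only [hν]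
    rcases le_total 0 (μ j) with h | h
    · rw [abs_of_nonneg h]; linarith [h1 j]
    · rw [abs_of_nonpos h]; linarith [h2 j]
  have hmm : ∀ a c, 0 ≤ mm ν a c := fun a c => prod_nonneg fun j _ => abs_nonneg _
  have hp : ∀ a c, 0 ≤ (1 - ν a) * mm ν a c := fun a c =>
    mul_nonneg (by linarith [hν1 a]) (hmm a c)
  have hX : ∀ c, c ≤ A → ‖XX μ z c‖ ^ 2 ≤ 4 * K * XX ν γ c := by
    intro c hc
    have e1 : ‖XX μ z c‖ ≤
        2 * ∑ a ∈ range (c + 1), (1 - ν a) * mm ν a c * ‖∑ e ∈ Ico a (c + 1), z e‖ := by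
      rw [XX_eq μ h0, mul_sum]
      refine (norm_sum_le _ _).trans (sum_le_sum fun a _ => ?_)
      rw [norm_smul, Real.norm_eq_abs, abs_mul, abs_mm, abs_of_nonneg (by linarith [h1 a])]
      have := mul_le_mul_of_nonneg_right (hν2 a)
        (mul_nonneg (hmm a c) (norm_nonneg (∑ e ∈ Ico a (c + 1), z e)))
      linarith
    have e2 := sum_sq_le_sum_mul_sum_of_sq_le_mul (range (c + 1))
      (r := fun a => (1 - ν a) * mm ν a c * ‖∑ e ∈ Ico a (c + 1), z e‖)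
      (f := fun a => (1 - ν a) * mm ν a c)
      (g := fun a => (1 - ν a) * mm ν a c * ‖∑ e ∈ Ico a (c + 1), z e‖ ^ 2)
      (fun a _ => hp a c) (fun a _ => mul_nonneg (hp a c) (sq_nonneg _)) (fun a _ => le_of_eq (by ring))
    rw [sum_weights ν hν0, one_mul] at e2
    have e3 : ∑ a ∈ range (c + 1), (1 - ν a) * mm ν a c * ‖∑ e ∈ Ico a (c + 1), z e‖ ^ 2 ≤
        K * XX ν γ c := by
      rw [XX_eq ν hν0, mul_sum]
      refine sum_le_sum fun a ha => ?_
      have := mul_le_mul_of_nonneg_left (hT a c (Nat.lt_succ_iff.1 (mem_range.1 ha)) hc) (hp a c)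
      rw [smul_eq_mul]; linarith
    have e4 := pow_le_pow_left₀ (norm_nonneg _) e1 2
    rw [mul_pow] at e4
    linarith
  have hY : ∀ c, 0 ≤ XX ν γ c := fun c => by
    rw [XX]; exact sum_nonneg fun a _ => mul_nonneg (hmm a c) (hγ a)
  rw [Bq_eq, ← telescope ν γ A, mul_add, mul_sum]
  refine add_le_add (sum_le_sum fun e he => ?_) ?_
  · have e5 := hX e (mem_range.1 he).le
    have e6 : 1 - μ (e + 1) ^ 2 ≤ 2 * (1 - ν (e + 1)) := by
      have : μ (e + 1) ^ 2 = ν (e + 1) ^ 2 := by simp [hν]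
      rw [this]; nlinarith [sq_nonneg (1 - ν (e + 1))]
    have e7 : 0 ≤ 1 - ν (e + 1) := by linarith [hν1 (e + 1)]
    calc (1 - μ (e + 1) ^ 2) * ‖XX μ z e‖ ^ 2 ≤ 2 * (1 - ν (e + 1)) * ‖XX μ z e‖ ^ 2 := by gcongr
      _ ≤ 2 * (1 - ν (e + 1)) * (4 * K * XX ν γ e) := by gcongr
      _ = _ := by ring
  · have := hX A le_rfl
    have := mul_nonneg hK (hY A)
    linarith

def pr (z : ℕ → F) (j : ℕ) : F := z (2 * j) + z (2 * j + 1)

noncomputable def Gam : ℕ → (ℕ → F) → ℕ → ℝ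
  | 0, z, l => ‖z l‖ ^ 2
  | k + 1, z, l => ‖z l‖ ^ 2 + if l % 2 = 0 then Gam k (pr z) (l / 2) else 0

omit [InnerProductSpace ℝ F] in
lemma Gam_nonneg (k : ℕ) (z : ℕ → F) (l : ℕ) : 0 ≤ Gam k z l := by
  induction k generalizing z l with
  | zero => exact sq_nonneg _
  | succ k ih =>
    rw [Gam]
    have := ih (pr z) (l / 2)
    split_ifs <;> positivity

lemma sum_Ico_two_mul {M : Type} [AddCommMonoid M] (f : ℕ → M) {a b : ℕ} (h : a ≤ b) :
    ∑ e ∈ Ico (2 * a) (2 * b), f e = ∑ j ∈ Ico a b, (f (2 * j) + f (2 * j + 1)) := by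
  induction b, h using Nat.le_induction with
  | base => simp
  | succ b hb ih =>
    rw [sum_Ico_succ_top hb, ← ih, show 2 * (b + 1) = 2 * b + 1 + 1 by ring,
      sum_Ico_succ_top (by omega), sum_Ico_succ_top (by omega), add_assoc]

lemma sum_Ico_split {M : Type} [AddCommMonoid M] (f : ℕ → M) {a b : ℕ} (h : a < b) :
    ∑ e ∈ Ico a b, f e = (if a % 2 = 1 then f a else 0) + (if b % 2 = 1 then f (b - 1) else 0) +
      ∑ j ∈ Ico ((a + 1) / 2) (b / 2), (f (2 * j) + f (2 * j + 1)) := by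
  rw [← sum_Ico_two_mul f (by omega)]
  have h1 : a ≤ 2 * ((a + 1) / 2) := by omega
  have h2 : 2 * ((a + 1) / 2) ≤ 2 * (b / 2) := by omega
  have h3 : 2 * (b / 2) ≤ b := by omega
  rw [← sum_Ico_consecutive f h1 (h2.trans h3), ← sum_Ico_consecutive f h2 h3]
  have e1 : ∑ e ∈ Ico a (2 * ((a + 1) / 2)), f e = if a % 2 = 1 then f a else 0 := by
    split_ifs with ha
    · rw [show 2 * ((a + 1) / 2) = a + 1 by omega]; simp
    · rw [show 2 * ((a + 1) / 2) = a by omega]; simp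
  have e2 : ∑ e ∈ Ico (2 * (b / 2)) b, f e = if b % 2 = 1 then f (b - 1) else 0 := by
    split_ifs with hb
    · obtain ⟨c, rfl⟩ : ∃ c, b = c + 1 := ⟨b - 1, by omega⟩
      rw [show 2 * ((c + 1) / 2) = c by omega]; simp
    · rw [show 2 * (b / 2) = b by omega]; simp
  rw [e1, e2]; abel

omit [InnerProductSpace ℝ F] in
lemma dyadic (k : ℕ) (z : ℕ → F) (a b : ℕ) (h : b ≤ a + 2 ^ (k + 1)) :
    ‖∑ e ∈ Ico a b, z e‖ ^ 2 ≤ 2 * (k + 1) * ∑ l ∈ Ico a b, Gam k z l := by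
  induction k generalizing z a b with
  | zero =>
    have h1 := norm_sum_le (Ico a b) z
    have h2 := sq_sum_le_card_mul_sum_sq (s := Ico a b) (f := fun e => ‖z e‖)
    have h3 : ((Ico a b).card : ℝ) ≤ 2 := by
      have : (Ico a b).card ≤ 2 := by rw [Nat.card_Ico]; omega
      exact_mod_cast this
    have h4 : 0 ≤ ∑ e ∈ Ico a b, ‖z e‖ ^ 2 := by positivity
    have h5 := pow_le_pow_left₀ (norm_nonneg _) h1 2
    simp only [Gam]
    nlinarith
  | succ k ih =>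
    rcases Nat.lt_or_ge a b with hab | hab
    swap
    · simp [Ico_eq_empty_of_le hab]
    have h1 := ih (pr z) ((a + 1) / 2) (b / 2) (by rw [pow_succ] at h; omega)
    set S := ∑ l ∈ Ico ((a + 1) / 2) (b / 2), Gam k (pr z) l with hS
    have hS0 : 0 ≤ S := sum_nonneg fun l _ => Gam_nonneg _ _ _
    set x : ℝ := if a % 2 = 1 then ‖z a‖ else 0 with hx
    set y : ℝ := if b % 2 = 1 then ‖z (b - 1)‖ else 0 with hy
    set w := ‖∑ e ∈ Ico ((a + 1) / 2) (b / 2), pr z e‖ with hw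
    have h2 : ‖∑ e ∈ Ico a b, z e‖ ≤ x + y + w := by
      rw [sum_Ico_split z hab]
      refine norm_add₃_le.trans (le_of_eq ?_)
      congr 2
      · rw [hx]; split_ifs <;> simp
      · rw [hy]; split_ifs <;> simp
    have h3 : x ^ 2 + y ^ 2 + S ≤ ∑ l ∈ Ico a b, Gam (k + 1) z l := by
      rw [sum_Ico_split _ hab]
      refine add_le_add (add_le_add ?_ ?_) (sum_le_sum fun j _ => ?_)
      · rw [hx]
        split_ifs with ha
        · rw [Gam, if_neg (by omega)]; simp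
        · simp
      · rw [hy]
        split_ifs with hb
        · rw [Gam]
          have := Gam_nonneg k (pr z) ((b - 1) / 2)
          split_ifs <;> linarith
        · simp
      · have := Gam_nonneg (k + 1) z (2 * j + 1)
        rw [Gam, if_pos (by omega), show 2 * j / 2 = j by omega]
        have := sq_nonneg ‖z (2 * j)‖
        linarith
    have h4 := pow_le_pow_left₀ (norm_nonneg _) h2 2
    have hk : (0 : ℝ) < k + 1 := by positivity
    have h5 : (x + y + w) ^ 2 ≤ 2 * (k + 1 + 1) * (x ^ 2 + y ^ 2 + S) := by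
      have h6 : (k + 1) * (x + y + w) ^ 2 ≤
          (k + 1) * (2 * (k + 1 + 1) * (x ^ 2 + y ^ 2 + S)) := by
        nlinarith [sq_nonneg (2 * (k + 1) * x - w), sq_nonneg (2 * (k + 1) * y - w),
          mul_nonneg hk.le (sq_nonneg (x - y))]
      exact le_of_mul_le_mul_left h6 hk
    push_cast
    calc _ ≤ _ := h4
      _ ≤ _ := h5
      _ ≤ _ := by gcongr

lemma sum_Gam_le {Ω : Type} [Fintype Ω] (k : ℕ) (z : ℕ → Ω → F)
    (horth : ∀ i j, i ≠ j → ∑ ω, ⟪z i ω, z j ω⟫ = 0) (T : ℝ)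
    (hT : ∀ M, ∑ l ∈ range M, ∑ ω, ‖z l ω‖ ^ 2 ≤ T) (M : ℕ) :
    ∑ l ∈ range M, ∑ ω, Gam k (fun i => z i ω) l ≤ (k + 1) * T := by
  induction k generalizing z M with
  | zero => simpa [Gam] using hT M
  | succ k ih =>
    have h1 := ih (fun j ω => z (2 * j) ω + z (2 * j + 1) ω) (by
      intro i j hij
      simp only [inner_add_left, inner_add_right, sum_add_distrib]
      rw [horth _ _ (by omega), horth _ _ (by omega), horth _ _ (by omega), horth _ _ (by omega)]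
      simp) (by
      intro M
      refine le_trans (le_of_eq ?_) (hT (2 * M))
      rw [range_eq_Ico, range_eq_Ico, ← mul_zero 2, sum_Ico_two_mul _ (Nat.zero_le M), mul_zero]
      refine sum_congr rfl fun j _ => ?_
      simp only [norm_add_sq_real, sum_add_distrib, ← mul_sum]
      rw [horth _ _ (by omega)]; simp) M
    have h2 : ∑ l ∈ range M, ∑ ω, Gam (k + 1) (fun i => z i ω) l ≤
        ∑ l ∈ range (2 * M), ∑ ω, Gam (k + 1) (fun i => z i ω) l :=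
      sum_le_sum_of_subset_of_nonneg (range_subset_range.2 (by omega))
        fun l _ _ => sum_nonneg fun ω _ => Gam_nonneg _ _ _
    refine h2.trans ?_
    simp only [Gam, sum_add_distrib]
    have h3 : ∑ l ∈ range (2 * M), ∑ ω, (if l % 2 = 0 then Gam k (pr fun i => z i ω) (l / 2) else 0)
        = ∑ l ∈ range M, ∑ ω, Gam k (fun i => z (2 * i) ω + z (2 * i + 1) ω) l := by
      rw [range_eq_Ico, range_eq_Ico, ← mul_zero 2, sum_Ico_two_mul _ (Nat.zero_le M), mul_zero]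
      refine sum_congr rfl fun j _ => ?_
      simp only [show 2 * j % 2 = 0 by omega, show ¬ (2 * j + 1) % 2 = 0 by omega, if_true,
        if_false, show 2 * j / 2 = j by omega, sum_const_zero, add_zero]
      rfl
    rw [h3]
    have := hT (2 * M)
    push_cast
    linarith

/-- the averaged quadratic form -/
lemma sum_Bq_le {Ω : Type} [Fintype Ω] (μ : Ω → ℕ → ℝ) (h0 : ∀ ω, μ ω 0 = 0)
    (h1 : ∀ ω j, μ ω j ≤ 1) (h2 : ∀ ω j, -1 / 3 ≤ μ ω j) (z : ℕ → Ω → F)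
    (horth : ∀ i j, i ≠ j → ∑ ω, ⟪z i ω, z j ω⟫ = 0) (T : ℝ)
    (hT : ∀ M, ∑ l ∈ range M, ∑ ω, ‖z l ω‖ ^ 2 ≤ T) (k A : ℕ) (hA : A ≤ 2 ^ (k + 1)) :
    ∑ ω, Bq (μ ω) (fun i => z i ω) A ≤ 16 * (k + 1) ^ 2 * T := by
  have hT0 : 0 ≤ T := by simpa using hT 0
  rcases A with _ | A
  · simp only [Bq, range_zero, sum_empty, sum_const_zero]; positivity
  have h3 : ∀ ω, Bq (μ ω) (fun i => z i ω) (A + 1) ≤
      8 * (2 * (k + 1)) * ∑ l ∈ range (A + 1), Gam k (fun i => z i ω) l := fun ω =>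
    Bq_le (μ ω) (h0 ω) (h1 ω) (h2 ω) _ _ (Gam_nonneg k _) _ (by positivity) A
      fun a c _ hc => dyadic k _ a (c + 1) (by omega)
  refine (sum_le_sum fun ω _ => h3 ω).trans ?_
  rw [← mul_sum, sum_comm]
  have := sum_Gam_le k z horth T hT (A + 1)
  calc _ ≤ 8 * (2 * (k + 1)) * ((k + 1) * T) := by gcongr
    _ = _ := by ring

end Pool.Agent.MP_9210c2_an
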